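import Mathlib

/-!
# Facts on the alternating group of degree five
-/

open Equiv

namespace Pool.Agent.R708

universe u

/-- The alternating group on five letters. -/
abbrev S5 : Type := alternatingGroup (Fin 5)

/-- An element of order two. -/
def x1 : S5 := ⟨swap 0 1 * swap 2 3, by rw [Perm.mem_alternatingGroup]; decide⟩

/-- An element of order three. -/
def x2 : S5 := ⟨swap 2 3 * swap 3 4, by rw [Perm.mem_alternatingGroup]; decide⟩

/-- An element of order five. -/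
def x3 : S5 := ⟨swap 0 1 * swap 1 2 * swap 2 3 * swap 3 4, by
  rw [Perm.mem_alternatingGroup]; decide⟩

theorem x1_ne : x1 ≠ 1 := by decide
theorem x2_ne : x2 ≠ 1 := by decide
theorem x3_ne : x3 ≠ 1 := by decide
theorem x1_pow2 : x1 ^ 2 = 1 := by decide
theorem x2_pow3 : x2 ^ 3 = 1 := by decide
theorem x3_pow5 : x3 ^ 5 = 1 := by decide
theorem x2_pow2 : x2 ^ 2 ≠ 1 := by decide
theorem x3_pow2 : x3 ^ 2 ≠ 1 := by decide
theorem x1_pow3 : x1 ^ 3 ≠ 1 := by decide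
theorem x3_pow3 : x3 ^ 3 ≠ 1 := by decide
theorem x1_pow5 : x1 ^ 5 ≠ 1 := by decide
theorem x2_pow5 : x2 ^ 5 ≠ 1 := by decide
theorem x12_comm : x1 * x2 ≠ x2 * x1 := by decide
theorem x12_pow2 : (x1 * x2) ^ 2 = 1 := by decide
theorem x123_pow2 : (x1 * x2 * x3) ^ 2 ≠ 1 := by decide
theorem x21_pow2 : (x2 * x1) ^ 2 = 1 := by decide
theorem x231_pow2 : (x2 * x3 * x1) ^ 2 ≠ 1 := by decide
theorem x1i_pow3 : (x1⁻¹) ^ 3 ≠ 1 := by decide
theorem x3i_pow3 : (x3⁻¹) ^ 3 ≠ 1 := by decide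
theorem x1i_pow5 : (x1⁻¹) ^ 5 ≠ 1 := by decide
theorem x2i_pow5 : (x2⁻¹) ^ 5 ≠ 1 := by decide
theorem x12_ne : x1 * x2 ≠ 1 := by decide
theorem x21_ne : x2 * x1 ≠ 1 := by decide
theorem x23_ne : x2 * x3 ≠ 1 := by decide
theorem x32_ne : x3 * x2 ≠ 1 := by decide
theorem x31_ne : x3 * x1 ≠ 1 := by decide
theorem x13_ne : x1 * x3 ≠ 1 := by decide

theorem x12i_ne : x1⁻¹ * x2⁻¹ ≠ 1 := by decide
theorem x21i_ne : x2⁻¹ * x1⁻¹ ≠ 1 := by decide
theorem x32i_ne : x3⁻¹ * x2⁻¹ ≠ 1 := by decide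
theorem x13i_ne : x1⁻¹ * x3⁻¹ ≠ 1 := by decide
theorem x1i_ne : x1⁻¹ ≠ 1 := by decide
theorem x2i_ne : x2⁻¹ ≠ 1 := by decide
theorem x3i_ne : x3⁻¹ ≠ 1 := by decide

theorem S5_pow (s : S5) : s ^ 60 = 1 := by
  have h : Fintype.card S5 = 60 := by
    have := two_mul_card_alternatingGroup (α := Fin 5)
    rw [Fintype.card_perm] at this
    have h5 : (Fintype.card (Fin 5)).factorial = 120 := by simp [Nat.factorial]
    rw [h5] at this
    have h6 : Fintype.card S5 = Fintype.card (alternatingGroup (Fin 5)) := rfl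
    omega
  rw [← h]
  exact pow_card_eq_one

theorem S5_hom {Γ : Type u} [Group Γ] (φ : S5 →* Γ) :
    Function.Injective φ ∨ ∀ s, φ s = 1 := by
  have hs : IsSimpleGroup S5 := alternatingGroup.isSimpleGroup (by simp)
  rcases hs.eq_bot_or_eq_top_of_normal φ.ker inferInstance with h | h
  · left
    exact (MonoidHom.ker_eq_bot_iff φ).1 h
  · right
    intro s
    have : s ∈ φ.ker := by rw [h]; trivial
    exact this

end Pool.Agent.R708
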