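import Mathlib

/-!
# Groups with a Britton lemma

An abstract version of (multi-letter) HNN extensions: a group `Γ` with an injective homomorphism
`inc : M → Γ`, oriented letters `t e`, edge groups `A e ≤ M`, and Britton's lemma.
-/

namespace Pool.Agent.R708

universe u v w

section Words

variable {M : Type u} {Γ : Type v} {E : Type w} [Group M] [Group Γ]

/-- The product of the list of syllables `t e * m`. -/
def prodl (inc : M →* Γ) (t : E → Γ) (l : List (E × M)) : Γ :=
  (l.map fun x => t x.1 * inc x.2).prod

/-- No pinches. -/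
def Red (A : E → Subgroup M) (inv : E → E) (l : List (E × M)) : Prop :=
  l.IsChain (fun a b => a.2 ∈ A a.1 → b.1 ≠ inv a.1)

end Words

/-- A group with a Britton lemma. -/
structure Brit (M : Type u) (Γ : Type v) (E : Type w) [Group M] [Group Γ] where
  /-- the inclusion of the base -/
  inc : M →* Γ
  inj : Function.Injective inc
  /-- the inverse letter -/
  inv : E → E
  inv_inv : ∀ e, inv (inv e) = e
  inv_ne : ∀ e, inv e ≠ e
  /-- the stable letters -/
  t : E → Γ
  t_inv : ∀ e, t (inv e) = (t e)⁻¹
  /-- the edge groups -/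
  A : E → Subgroup M
  pinch : ∀ e, ∀ a ∈ A e, ∃ b ∈ A (inv e), t e * inc a * (t e)⁻¹ = inc b
  gen : ∀ S : Subgroup Γ, (∀ m, inc m ∈ S) → (∀ e, t e ∈ S) → S = ⊤
  britton : ∀ l : List (E × M), l ≠ [] → Red A inv l → ∀ m, prodl inc t l ≠ inc m

namespace Brit

variable {M : Type u} {Γ : Type v} {E : Type w} [Group M] [Group Γ] (B : Brit M Γ E)

/-- The product of a list of syllables. -/
def P (l : List (E × M)) : Γ := prodl B.inc B.t l

/-- Reduced lists. -/
def R (l : List (E × M)) : Prop := Red B.A B.inv l

@[simp] theorem P_nil : B.P [] = 1 := rfl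

@[simp] theorem P_cons (x : E × M) (l : List (E × M)) :
    B.P (x :: l) = B.t x.1 * B.inc x.2 * B.P l := by
  simp [P, prodl]

@[simp] theorem P_append (l l' : List (E × M)) : B.P (l ++ l') = B.P l * B.P l' := by
  simp [P, prodl]

theorem R_nil : B.R [] := List.isChain_nil

theorem R_single (x : E × M) : B.R [x] := List.isChain_singleton _

theorem R_cons_cons (x y : E × M) (l : List (E × M)) :
    B.R (x :: y :: l) ↔ (x.2 ∈ B.A x.1 → y.1 ≠ B.inv x.1) ∧ B.R (y :: l) :=
  List.isChain_cons_cons

theorem R_append (l l' : List (E × M)) :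
    B.R (l ++ l') ↔ B.R l ∧ B.R l' ∧
      ∀ x ∈ l.getLast?, ∀ y ∈ l'.head?, (x.2 ∈ B.A x.1 → y.1 ≠ B.inv x.1) :=
  List.isChain_append

theorem R_tail {x : E × M} {l : List (E × M)} (h : B.R (x :: l)) : B.R l := by
  cases l with
  | nil => exact B.R_nil
  | cons y l => exact ((B.R_cons_cons x y l).1 h).2

theorem R_of_append_right {l l' : List (E × M)} (h : B.R (l ++ l')) : B.R l' :=
  ((B.R_append l l').1 h).2.1

theorem R_of_append_left {l l' : List (E × M)} (h : B.R (l ++ l')) : B.R l :=
  ((B.R_append l l').1 h).1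

/-- The first syllable may be changed by changing its `M`-part only when the list is a singleton;
here: the list `x :: l` being reduced depends only on the first syllable and the head of `l`. -/
theorem R_cons_iff (x : E × M) (l : List (E × M)) :
    B.R (x :: l) ↔ B.R l ∧ ∀ y ∈ l.head?, (x.2 ∈ B.A x.1 → y.1 ≠ B.inv x.1) := by
  cases l with
  | nil => simp [B.R_nil, B.R_single]
  | cons y l => rw [B.R_cons_cons]; simp; tauto

/-- A pinch on the left. -/
theorem pinch_left (e : E) (a : M) (ha : a ∈ B.A e) :
    ∃ b, b ∈ B.A (B.inv e) ∧ B.t e * B.inc a * B.t (B.inv e) = B.inc b := by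
  obtain ⟨b, hb, h⟩ := B.pinch e a ha
  exact ⟨b, hb, by rw [B.t_inv]; exact h⟩

/-- Elements with a reduced expression. -/
def HasRed (x : Γ) : Prop := ∃ (m : M) (l : List (E × M)), B.R l ∧ x = B.inc m * B.P l

theorem hasRed_inc_mul (m : M) {x : Γ} (hx : B.HasRed x) : B.HasRed (B.inc m * x) := by
  obtain ⟨m', l, hl, rfl⟩ := hx
  exact ⟨m * m', l, hl, by rw [map_mul, mul_assoc]⟩

theorem hasRed_t_mul (e : E) {x : Γ} (hx : B.HasRed x) : B.HasRed (B.t e * x) := by
  obtain ⟨m, l, hl, rfl⟩ := hx
  by_cases h : ∀ y ∈ l.head?, (m ∈ B.A e → y.1 ≠ B.inv e)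
  · refine ⟨1, (e, m) :: l, (B.R_cons_iff _ _).2 ⟨hl, h⟩, ?_⟩
    simp [mul_assoc]
  · push Not at h
    obtain ⟨y, hy, hm, hye⟩ := h
    cases l with
    | nil => simp at hy
    | cons z l =>
      simp only [List.head?_cons, Option.mem_def, Option.some.injEq] at hy
      subst hy
      obtain ⟨b, hb, hb'⟩ := B.pinch_left e m hm
      refine ⟨b * z.2, l, B.R_tail hl, ?_⟩
      rw [P_cons, hye, map_mul, ← hb']
      simp only [mul_assoc]

theorem hasRed (x : Γ) : B.HasRed x := by
  let S : Subgroup Γ := {
    carrier := {g | (∀ x, B.HasRed x → B.HasRed (g * x)) ∧ (∀ x, B.HasRed x → B.HasRed (g⁻¹ * x))}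
    mul_mem' := by
      intro a b ha hb
      refine ⟨fun x hx => ?_, fun x hx => ?_⟩
      · rw [mul_assoc]; exact ha.1 _ (hb.1 _ hx)
      · rw [mul_inv_rev, mul_assoc]; exact hb.2 _ (ha.2 _ hx)
    one_mem' := by simp
    inv_mem' := by
      intro a ha
      refine ⟨ha.2, ?_⟩
      rw [_root_.inv_inv]
      exact ha.1 }
  have hS : S = ⊤ := by
    apply B.gen
    · intro m
      refine ⟨fun x hx => B.hasRed_inc_mul m hx, fun x hx => ?_⟩
      rw [← map_inv]
      exact B.hasRed_inc_mul _ hx
    · intro e
      refine ⟨fun x hx => B.hasRed_t_mul e hx, fun x hx => ?_⟩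
      rw [← B.t_inv]
      exact B.hasRed_t_mul _ hx
  have hx : x ∈ S := by rw [hS]; trivial
  have h1 : B.HasRed 1 := ⟨1, [], B.R_nil, by simp⟩
  simpa using hx.1 1 h1

/-- Uniqueness, one step. -/
theorem unique_aux (l' : List (E × M)) : ∀ (l : List (E × M)) (m m' : M), B.R l → B.R l' →
    B.inc m * B.P l = B.inc m' * B.P l' →
    l.length = l'.length ∧ (∀ x ∈ l.head?, ∀ y ∈ l'.head?, x.1 = y.1 ∧
      m⁻¹ * m' ∈ B.A (B.inv x.1)) := by
  induction l' with
  | nil =>
    intro l m m' hl _ h
    have : l = [] := by
      by_contra hne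
      apply B.britton l hne hl (m⁻¹ * m')
      change B.P l = _
      rw [map_mul, map_inv, eq_inv_mul_iff_mul_eq, h]
      simp
    subst this
    simp
  | cons y' l₁' ih =>
    intro l m m' hl hl' h
    cases l with
    | nil =>
      exfalso
      apply B.britton _ (List.cons_ne_nil y' l₁') hl' (m'⁻¹ * m)
      change B.P (y' :: l₁') = _
      rw [map_mul, map_inv, eq_inv_mul_iff_mul_eq, ← h]
      simp
    | cons y l₁ =>
      -- `y = (e, a)`, `y' = (e', a')`
      have key : B.inc 1 * B.P ((B.inv y'.1, m'⁻¹ * m) :: y :: l₁) = B.inc y'.2 * B.P l₁' := by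
        rw [P_cons, map_one, one_mul]
        simp only
        rw [B.t_inv, map_mul, map_inv, mul_assoc, mul_assoc, h, P_cons, inv_mul_cancel_left,
          ← mul_assoc, ← mul_assoc, inv_mul_cancel, one_mul]
      by_cases hp : m'⁻¹ * m ∈ B.A (B.inv y'.1) ∧ y.1 = y'.1
      · obtain ⟨hp1, hp2⟩ := hp
        obtain ⟨b, hb, hb'⟩ := B.pinch_left _ _ hp1
        rw [B.inv_inv] at hb'
        have e1 : B.inc (b * y.2) * B.P l₁ = B.inc y'.2 * B.P l₁' := by
          rw [← key, P_cons, P_cons, map_one, one_mul]
          simp only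
          rw [hp2, map_mul, ← hb']
          simp only [mul_assoc]
        have := ih l₁ _ _ (B.R_tail hl) (B.R_tail hl') e1
        refine ⟨by simp [this.1], ?_⟩
        intro x hx z hz
        simp only [List.head?_cons, Option.mem_def, Option.some.injEq] at hx hz
        subst hx; subst hz
        refine ⟨hp2, ?_⟩
        rw [hp2]
        have := (B.A (B.inv y'.1)).inv_mem hp1
        simpa using this
      · exfalso
        have hred : B.R ((B.inv y'.1, m'⁻¹ * m) :: y :: l₁) := by
          rw [B.R_cons_cons]
          refine ⟨fun h1 h2 => hp ⟨h1, ?_⟩, hl⟩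
          rw [h2]
          simp [B.inv_inv]
        have h3 := ih _ _ _ hred (B.R_tail hl') key
        cases l₁' with
        | nil => simp at h3
        | cons z l₂' =>
          have h4 := h3.2 (B.inv y'.1, m'⁻¹ * m) (by simp) z (by simp)
          have h5 := (B.R_cons_cons _ _ _).1 hl'
          simp only [inv_one, one_mul, B.inv_inv] at h4
          exact h5.1 h4.2 h4.1.symm

theorem length_unique {l l' : List (E × M)} {m m' : M} (hl : B.R l) (hl' : B.R l')
    (h : B.inc m * B.P l = B.inc m' * B.P l') : l.length = l'.length :=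
  (B.unique_aux l' l m m' hl hl' h).1

/-- The length of an element. -/
noncomputable def len (x : Γ) : ℕ := (B.hasRed x).choose_spec.choose.length

theorem len_eq {l : List (E × M)} {m : M} (hl : B.R l) : B.len (B.inc m * B.P l) = l.length := by
  have h := (B.hasRed (B.inc m * B.P l)).choose_spec.choose_spec
  exact B.length_unique h.1 hl h.2.symm

theorem len_P {l : List (E × M)} (hl : B.R l) : B.len (B.P l) = l.length := by
  have := B.len_eq (m := 1) hl
  simpa using this

theorem len_inc (m : M) : B.len (B.inc m) = 0 := by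
  have := B.len_eq (m := m) B.R_nil
  simpa using this

theorem exists_red (x : Γ) : ∃ (m : M) (l : List (E × M)), B.R l ∧ x = B.inc m * B.P l ∧
    l.length = B.len x := by
  obtain ⟨m, l, hl, rfl⟩ := B.hasRed x
  exact ⟨m, l, hl, rfl, (B.len_eq hl).symm⟩

theorem len_eq_zero {x : Γ} (h : B.len x = 0) : ∃ m, x = B.inc m := by
  obtain ⟨m, l, hl, rfl, h2⟩ := B.exists_red x
  rw [h, List.length_eq_zero_iff] at h2
  subst h2
  exact ⟨m, by simp⟩

theorem len_inc_mul (m : M) (x : Γ) : B.len (B.inc m * x) = B.len x := by
  obtain ⟨m', l, hl, rfl, h2⟩ := B.exists_red x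
  rw [← mul_assoc, ← map_mul, B.len_eq hl, h2]

theorem len_t_mul (e : E) (x : Γ) : B.len (B.t e * x) ≤ B.len x + 1 := by
  obtain ⟨m, l, hl, rfl, h2⟩ := B.exists_red x
  rw [← h2]
  by_cases h : ∀ y ∈ l.head?, (m ∈ B.A e → y.1 ≠ B.inv e)
  · have h3 : B.R ((e, m) :: l) := (B.R_cons_iff _ _).2 ⟨hl, h⟩
    have : B.t e * (B.inc m * B.P l) = B.P ((e, m) :: l) := by simp [mul_assoc]
    rw [this, B.len_P h3]
    simp
  · push Not at h
    obtain ⟨y, hy, hm, hye⟩ := h
    cases l with
    | nil => simp at hy
    | cons z l =>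
      simp only [List.head?_cons, Option.mem_def, Option.some.injEq] at hy
      subst hy
      obtain ⟨b, hb, hb'⟩ := B.pinch_left e m hm
      have : B.t e * (B.inc m * B.P (z :: l)) = B.inc (b * z.2) * B.P l := by
        rw [P_cons, hye, map_mul, ← hb']
        simp only [mul_assoc]
      rw [this, B.len_eq (B.R_tail hl)]
      simp only [List.length_cons]
      omega

theorem len_P_mul (l : List (E × M)) (x : Γ) : B.len (B.P l * x) ≤ l.length + B.len x := by
  induction l with
  | nil => simp
  | cons y l ih =>
    rw [P_cons, mul_assoc, mul_assoc]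
    refine (B.len_t_mul _ _).trans ?_
    rw [B.len_inc_mul]
    simp only [List.length_cons]
    omega

theorem len_mul (x y : Γ) : B.len (x * y) ≤ B.len x + B.len y := by
  obtain ⟨m, l, hl, rfl, h2⟩ := B.exists_red x
  rw [mul_assoc, B.len_inc_mul, ← h2]
  exact B.len_P_mul l y

theorem len_P_le (l : List (E × M)) : B.len (B.P l) ≤ l.length := by
  have := B.len_P_mul l 1
  have h1 : B.len 1 = 0 := by simpa using B.len_inc 1
  simpa [h1] using this

/-! ### Cyclically reduced lists -/

/-- Cyclically reduced nonempty lists. -/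
def C (l : List (E × M)) : Prop := l ≠ [] ∧ B.R (l ++ l)

variable {B}

theorem C.red {l : List (E × M)} (h : B.C l) : B.R l := B.R_of_append_left h.2

theorem C.pow {l : List (E × M)} (h : B.C l) (N : ℕ) : B.R (List.replicate N l).flatten := by
  induction N with
  | zero => simpa using B.R_nil
  | succ N ih =>
    rw [List.replicate_succ, List.flatten_cons]
    cases N with
    | zero => simpa using h.red
    | succ N =>
      rw [B.R_append]
      refine ⟨h.red, ih, ?_⟩
      have := ((B.R_append l l).1 h.2).2.2
      intro x hx y hy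
      apply this x hx y
      rw [List.replicate_succ, List.flatten_cons, List.head?_append] at hy
      obtain ⟨z, l', rfl⟩ := List.exists_cons_of_ne_nil h.1
      simpa using hy

variable (B)

theorem P_pow (l : List (E × M)) (N : ℕ) : B.P (List.replicate N l).flatten = B.P l ^ N := by
  induction N with
  | zero => simp
  | succ N ih => rw [List.replicate_succ, List.flatten_cons, P_append, ih, pow_succ']

variable {B}

theorem C.len_pow {l : List (E × M)} (h : B.C l) (N : ℕ) : B.len (B.P l ^ N) = N * l.length := by
  rw [← B.P_pow, B.len_P (h.pow N)]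
  simp

theorem C.length_pos {l : List (E × M)} (h : B.C l) : 0 < l.length :=
  List.length_pos_iff.2 h.1

/-- Conjugate cyclically reduced elements have the same length. -/
theorem C.length_eq {l l' : List (E × M)} (h : B.C l) (h' : B.C l') {g : Γ}
    (hg : B.P l' = g * B.P l * g⁻¹) : l'.length = l.length := by
  have key : ∀ {l l' : List (E × M)}, B.C l → B.C l' → ∀ {g : Γ}, B.P l' = g * B.P l * g⁻¹ →
      l'.length ≤ l.length := by
    intro l l' h h' g hg
    by_contra hlt
    push Not at hlt
    set N := B.len g + B.len g⁻¹ + 1 with hN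
    have h1 := h'.len_pow N
    rw [hg, conj_pow] at h1
    have h2 : B.len (g * B.P l ^ N * g⁻¹) ≤ B.len g + N * l.length + B.len g⁻¹ := by
      refine (B.len_mul _ _).trans ?_
      have := B.len_mul g (B.P l ^ N)
      rw [h.len_pow] at this
      omega
    rw [h1] at h2
    have h3 : N * (l.length + 1) ≤ N * l'.length := Nat.mul_le_mul_left N hlt
    rw [mul_add, mul_one] at h3
    omega
  refine le_antisymm (key h h' hg) (key h' h (g := g⁻¹) ?_)
  rw [hg]
  group

/-- Cyclically reduced elements are not conjugate into the base. -/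
theorem C.not_conj_inc {l : List (E × M)} (h : B.C l) (g : Γ) (m : M) :
    B.P l ≠ g * B.inc m * g⁻¹ := by
  intro hg
  set N := B.len g + B.len g⁻¹ + 1 with hN
  have h1 := h.len_pow N
  rw [hg, conj_pow, ← map_pow] at h1
  have h2 : B.len (g * B.inc (m ^ N) * g⁻¹) ≤ B.len g + B.len g⁻¹ := by
    refine (B.len_mul _ _).trans ?_
    have := B.len_mul g (B.inc (m ^ N))
    rw [B.len_inc] at this
    omega
  rw [h1] at h2
  have h3 : N * 1 ≤ N * l.length := Nat.mul_le_mul_left N h.length_pos
  omega

theorem C.pow_ne_one {l : List (E × M)} (h : B.C l) {N : ℕ} (hN : 0 < N) : B.P l ^ N ≠ 1 := by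
  intro h1
  have h2 := h.len_pow N
  have h0 : B.len (1 : Γ) = 0 := by simpa using B.len_inc 1
  rw [h1, h0] at h2
  have := Nat.mul_pos hN h.length_pos
  omega

theorem C.cpow {l : List (E × M)} (h : B.C l) {N : ℕ} (hN : 0 < N) :
    B.C (List.replicate N l).flatten := by
  refine ⟨?_, ?_⟩
  · intro h0
    have := congrArg List.length h0
    have h2 := Nat.mul_pos hN h.length_pos
    simp at this
    rcases this with h3 | h3
    · omega
    · exact h.1 h3
  · have := h.pow (N + N)
    rwa [List.replicate_add, List.flatten_append] at this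

variable (B)

/-- Every element is conjugate into the base or to a cyclically reduced element. -/
theorem exists_cyc (x : Γ) : (∃ g m, x = g * B.inc m * g⁻¹) ∨
    ∃ g l, B.C l ∧ x = g * B.P l * g⁻¹ := by
  have key : ∀ n : ℕ, ∀ x : Γ, B.len x = n → (∃ g m, x = g * B.inc m * g⁻¹) ∨
    ∃ g l, B.C l ∧ x = g * B.P l * g⁻¹ := by
    intro n
    induction n using Nat.strong_induction_on with
    | _ n ih =>
      intro x hx
      obtain ⟨m, l, hl, hxl, hlen⟩ := B.exists_red x
      rcases List.eq_nil_or_concat l with rfl | ⟨l₀, ⟨e, a⟩, rfl⟩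
      · left
        exact ⟨1, m, by simp [hxl]⟩
      · -- conjugate by `m`
        rw [List.concat_eq_append] at *
        have hl' : B.R (l₀ ++ [(e, a * m)]) := by
          rw [B.R_append] at hl ⊢
          refine ⟨hl.1, B.R_single _, ?_⟩
          intro u hu y hy
          simp only [List.head?_cons, Option.mem_def, Option.some.injEq] at hy
          subst hy
          exact hl.2.2 u hu (e, a) (by simp)
        have hx2 : x = B.inc m * B.P (l₀ ++ [(e, a * m)]) * (B.inc m)⁻¹ := by
          rw [hxl]
          simp [mul_assoc]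
        by_cases hc : B.C (l₀ ++ [(e, a * m)])
        · right
          exact ⟨_, _, hc, hx2⟩
        · -- a pinch between the last and the first letter
          have hne : l₀ ++ [(e, a * m)] ≠ [] := by simp
          have hnr : ¬ B.R ((l₀ ++ [(e, a * m)]) ++ (l₀ ++ [(e, a * m)])) := fun h => hc ⟨hne, h⟩
          rw [B.R_append] at hnr
          push Not at hnr
          obtain ⟨u, hu, y, hy, hum, hye⟩ := hnr hl' hl'
          have hu' : u = (e, a * m) := by
            rw [List.getLast?_append] at hu
            simpa using hu.symm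
          subst hu'
          cases l₀ with
          | nil =>
            exfalso
            simp only [List.nil_append, List.head?_cons, Option.mem_def,
              Option.some.injEq] at hy
            subst hy
            exact B.inv_ne e hye.symm
          | cons z l₁ =>
            simp only [List.cons_append, List.head?_cons, Option.mem_def,
              Option.some.injEq] at hy
            subst hy
            obtain ⟨b, hb, hb'⟩ := B.pinch_left e (a * m) hum
            simp only at hye
            have hx3 : x = (B.inc m * (B.t e * B.inc (a * m))⁻¹) *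
                (B.inc (b * z.2) * B.P l₁) * (B.inc m * (B.t e * B.inc (a * m))⁻¹)⁻¹ := by
              rw [hx2, map_mul B.inc b, ← hb', P_append, P_cons, P_cons, P_nil, ← hye]
              group
            have hlt : B.len (B.inc (b * z.2) * B.P l₁) < n := by
              have hz : B.R l₁ := by
                have := B.R_tail hl'
                exact B.R_of_append_left this
              rw [B.len_eq hz, ← hx, ← hlen]
              simp only [List.cons_append, List.length_cons, List.length_append]
              omega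
            rcases ih _ hlt _ rfl with ⟨g, m', h1⟩ | ⟨g, l', hl'', h1⟩
            · left
              refine ⟨(B.inc m * (B.t e * B.inc (a * m))⁻¹) * g, m', ?_⟩
              rw [hx3, h1]
              group
            · right
              refine ⟨(B.inc m * (B.t e * B.inc (a * m))⁻¹) * g, l', hl'', ?_⟩
              rw [hx3, h1]
              group
  exact key _ x rfl

/-- Elements of finite order are conjugate into the base. -/
theorem torsion_conj {x : Γ} {N : ℕ} (hN : 0 < N) (hx : x ^ N = 1) :
    ∃ g m, x = g * B.inc m * g⁻¹ := by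
  rcases B.exists_cyc x with h | ⟨g, l, hl, h⟩
  · exact h
  · exfalso
    rw [h, conj_pow] at hx
    apply hl.pow_ne_one hN
    have : B.P l ^ N = g⁻¹ * (g * B.P l ^ N * g⁻¹) * g := by group
    rw [this, hx]
    group

/-- Elements of the base which are conjugate are conjugate in the base, or conjugate in the base
into an edge group. -/
theorem conj_inc {z z' : M} {g : Γ} (h : B.inc z = g * B.inc z' * g⁻¹) :
    (∃ m : M, z = m * z' * m⁻¹) ∨ ∃ (m : M) (e : E), m⁻¹ * z * m ∈ B.A e := by
  obtain ⟨m, l, hl, hgl, -⟩ := B.exists_red g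
  rcases List.eq_nil_or_concat l with rfl | ⟨l₀, ⟨e, a⟩, rfl⟩
  · left
    refine ⟨m, B.inj ?_⟩
    rw [h, hgl]
    simp
  · right
    rw [List.concat_eq_append] at *
    have h1 : B.inc (z * m) * B.P (l₀ ++ [(e, a)]) = B.inc m * B.P (l₀ ++ [(e, a * z')]) := by
      have h2 : B.inc z * g = g * B.inc z' := by rw [h]; group
      rw [hgl] at h2
      rw [map_mul, mul_assoc, h2]
      simp [mul_assoc]
    have hl' : B.R (l₀ ++ [(e, a * z')]) := by
      rw [B.R_append] at hl ⊢
      refine ⟨hl.1, B.R_single _, ?_⟩
      intro u hu y hy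
      simp only [List.head?_cons, Option.mem_def, Option.some.injEq] at hy
      subst hy
      exact hl.2.2 u hu (e, a) (by simp)
    have h3 := (B.unique_aux _ _ _ _ hl hl' h1).2
    obtain ⟨y, hy⟩ : ∃ y, y ∈ (l₀ ++ [(e, a)]).head? := by
      cases l₀ <;> simp
    obtain ⟨y', hy'⟩ : ∃ y, y ∈ (l₀ ++ [(e, a * z')]).head? := by
      cases l₀ <;> simp
    have h4 := (h3 y hy y' hy').2
    refine ⟨m, B.inv y.1, ?_⟩
    have h5 := (B.A (B.inv y.1)).inv_mem h4
    have h6 : ((z * m)⁻¹ * m)⁻¹ = m⁻¹ * z * m := by group
    rwa [h6] at h5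

end Brit

end Pool.Agent.R708
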