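import Pool.Agent.R708.Britton

/-!
# Products of conjugates and cyclic uniqueness
-/

namespace Pool.Agent.R708

universe u v w

namespace Brit

variable {M : Type u} {Γ : Type v} {E : Type w} [Group M] [Group Γ] (B : Brit M Γ E)

/-- The list of `t e * (x * k * x⁻¹)` for `x = m * P l`. -/
def core : E → M → List (E × M) → M → List (E × M)
  | e, m, [], k => [(e, m * k * m⁻¹)]
  | e, m, (e', m') :: l, k => (e, m) :: (core e' m' l k ++ [(B.inv e', m⁻¹)])

theorem P_core (e : E) (m : M) (l : List (E × M)) (k : M) :
    B.P (B.core e m l k) =
      B.t e * ((B.inc m * B.P l) * B.inc k * (B.inc m * B.P l)⁻¹) := by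
  induction l generalizing e m with
  | nil => simp [core]
  | cons x l ih =>
    obtain ⟨e', m'⟩ := x
    rw [core, P_cons, P_append, ih, P_cons, P_cons, P_nil, B.t_inv]
    simp only [map_inv]
    group

theorem length_core (e : E) (m : M) (l : List (E × M)) (k : M) :
    (B.core e m l k).length = 2 * l.length + 1 := by
  induction l generalizing e m with
  | nil => simp [core]
  | cons x l ih =>
    obtain ⟨e', m'⟩ := x
    rw [core]
    simp [ih]
    ring

theorem head_core (e : E) (m : M) (l : List (E × M)) (k : M) :
    ∃ a L, B.core e m l k = (e, a) :: L := by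
  cases l with
  | nil => exact ⟨_, _, rfl⟩
  | cons x l => exact ⟨_, _, rfl⟩

/-- `k` is not conjugate (in the base) into an edge group. -/
def NE (k : M) : Prop := ∀ (m : M) (e : E), m * k * m⁻¹ ∉ B.A e

theorem R_core (e : E) (m : M) (l : List (E × M)) (k : M) (hk : B.NE k)
    (hl : B.R ((e, m) :: l)) (x : M) : B.R (B.core e m l k ++ [(B.inv e, x)]) := by
  induction l generalizing e m x with
  | nil =>
    rw [core]
    simp only [List.singleton_append]
    rw [B.R_cons_cons]
    exact ⟨fun h => absurd h (hk _ _), B.R_single _⟩
  | cons y l ih =>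
    obtain ⟨e', m'⟩ := y
    rw [core]
    have h1 := (B.R_cons_cons _ _ _).1 hl
    have h2 := ih e' m' h1.2 m⁻¹
    rw [List.cons_append, B.R_cons_iff]
    refine ⟨?_, ?_⟩
    · rw [B.R_append]
      refine ⟨h2, B.R_single _, ?_⟩
      intro u hu z hz hum
      simp only [List.getLast?_append, List.getLast?_singleton, Option.some_or, Option.mem_def,
        Option.some.injEq, List.head?_cons] at hu hz
      subst hu; subst hz
      simp only [B.inv_inv] at hum ⊢
      intro h3
      apply h1.1
      · have : B.inv e' = e := by rw [← h3, B.inv_inv]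
        rw [this] at hum
        simpa using hum
      · exact h3.symm
    · intro z hz
      obtain ⟨a, L, hL⟩ := B.head_core e' m' l k
      rw [hL] at hz
      simp only [List.cons_append, List.head?_cons, Option.mem_def, Option.some.injEq] at hz
      subst hz
      exact h1.1

/-- Blocks: reduced lists beginning with `e` and ending with `(inv e, x)`, `x ∉ A (inv e)`. -/
def Blk (e : E) (L : List (E × M)) : Prop :=
  B.R L ∧ (∃ a L', L = (e, a) :: L') ∧ ∃ L' x, L = L' ++ [(B.inv e, x)] ∧ x ∉ B.A (B.inv e)

variable {B}

theorem Blk.append {e : E} {L L' : List (E × M)} (h : B.Blk e L) (h' : B.Blk e L') :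
    B.Blk e (L ++ L') := by
  obtain ⟨h1, ⟨a, L₁, hL₁⟩, L₂, x, hL₂, hx⟩ := h
  obtain ⟨h1', ⟨a', L₁', hL₁'⟩, L₂', x', hL₂', hx'⟩ := h'
  refine ⟨?_, ⟨a, L₁ ++ L', by rw [hL₁]; rfl⟩, L ++ L₂', x', by rw [hL₂']; simp, hx'⟩
  rw [B.R_append]
  refine ⟨h1, h1', ?_⟩
  intro u hu y hy hum
  rw [hL₂] at hu
  simp only [List.getLast?_append, List.getLast?_singleton, Option.some_or, Option.mem_def,
    Option.some.injEq] at hu
  subst hu
  exact absurd hum hx

theorem Blk.c {e : E} {L : List (E × M)} (h : B.Blk e L) : B.C L := by
  refine ⟨?_, (h.append h).1⟩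
  obtain ⟨-, ⟨a, L₁, hL₁⟩, -⟩ := h
  rw [hL₁]
  simp

variable (B)

/-- The block of `x k x⁻¹ y`, up to conjugation, for `x = m₀ t_e m P l`. -/
def blk (m₀ : M) (e : E) (m : M) (l : List (E × M)) (k y : M) : List (E × M) :=
  B.core e m l k ++ [(B.inv e, m₀⁻¹ * y * m₀)]

theorem blk_blk (m₀ : M) (e : E) (m : M) (l : List (E × M)) {k y : M} (hk : B.NE k) (hy : B.NE y)
    (hl : B.R ((e, m) :: l)) : B.Blk e (B.blk m₀ e m l k y) := by
  refine ⟨B.R_core e m l k hk hl _, ?_, _, _, rfl, ?_⟩
  · obtain ⟨a, L, hL⟩ := B.head_core e m l k
    exact ⟨a, L ++ [(B.inv e, m₀⁻¹ * y * m₀)], by rw [blk, hL]; rfl⟩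
  · have := hy m₀⁻¹ (B.inv e)
    simpa using this

theorem P_blk (m₀ : M) (e : E) (m : M) (l : List (E × M)) (k y : M) :
    B.inc m₀ * B.P (B.blk m₀ e m l k y) * (B.inc m₀)⁻¹ =
      (B.inc m₀ * B.P ((e, m) :: l)) * B.inc k * (B.inc m₀ * B.P ((e, m) :: l))⁻¹ * B.inc y := by
  rw [blk, P_append, P_core, P_cons, P_cons, P_nil, B.t_inv]
  simp only [map_mul, map_inv]
  group

theorem length_blk (m₀ : M) (e : E) (m : M) (l : List (E × M)) (k y : M) :
    (B.blk m₀ e m l k y).length = 2 * ((e, m) :: l).length := by
  rw [blk, List.length_append, length_core]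
  simp
  ring

/-- A product of a conjugate of an element of finite order and an element of finite order of the
base has infinite order, if the first does not lie in the base. -/
theorem conj_mem_base {x : Γ} {k y : M} (hk : B.NE k) (hy : B.NE y) {N : ℕ} (hN : 0 < N)
    (h : (x * B.inc k * x⁻¹ * B.inc y) ^ N = 1) : ∃ m, x = B.inc m := by
  obtain ⟨m₀, l, hl, hxl, -⟩ := B.exists_red x
  cases l with
  | nil => exact ⟨m₀, by simp [hxl]⟩
  | cons z l =>
    exfalso
    obtain ⟨e, m⟩ := z
    rw [hxl, ← B.P_blk, conj_pow] at h
    apply (B.blk_blk m₀ e m l hk hy hl).c.pow_ne_one hN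
    have : B.P (B.blk m₀ e m l k y) ^ N = (B.inc m₀)⁻¹ *
      (B.inc m₀ * B.P (B.blk m₀ e m l k y) ^ N * (B.inc m₀)⁻¹) * B.inc m₀ := by group
    rw [this, h]
    group

/-! ### Cyclic uniqueness for trivial edge groups -/

theorem unique_trivial (hA : ∀ e, B.A e = ⊥) (l' : List (E × M)) : ∀ (l : List (E × M)) (m m' : M),
    B.R l → B.R l' → B.inc m * B.P l = B.inc m' * B.P l' → m = m' ∧ l = l' := by
  induction l' with
  | nil =>
    intro l m m' hl hl' h
    have h1 := B.length_unique hl hl' h
    simp only [List.length_nil, List.length_eq_zero_iff] at h1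
    subst h1
    simp only [P_nil, mul_one] at h
    exact ⟨B.inj h, rfl⟩
  | cons y' l₁' ih =>
    intro l m m' hl hl' h
    have h1 := B.unique_aux _ _ _ _ hl hl' h
    cases l with
    | nil => simp at h1
    | cons y l₁ =>
      have h2 := h1.2 y (by simp) y' (by simp)
      rw [hA, Subgroup.mem_bot, inv_mul_eq_one] at h2
      obtain ⟨h3, rfl⟩ := h2
      have h4 : B.inc y.2 * B.P l₁ = B.inc y'.2 * B.P l₁' := by
        rw [P_cons, P_cons, h3] at h
        simpa [mul_assoc] using h
      have h5 := ih _ _ _ (B.R_tail hl) (B.R_tail hl') h4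
      refine ⟨rfl, ?_⟩
      rw [h5.2]
      congr 1
      exact Prod.ext h3 h5.1

/-- Rotating a cyclically reduced list. -/
theorem C_rotate {x : E × M} {l : List (E × M)} (h : B.C (x :: l)) : B.C (l ++ [x]) := by
  refine ⟨by simp, ?_⟩
  have h3 := h.pow 3
  have : (List.replicate 3 (x :: l)).flatten = x :: ((l ++ [x]) ++ (l ++ [x]) ++ l) := by
    simp [List.replicate_succ]
  rw [this] at h3
  exact B.R_of_append_left (B.R_tail h3)

theorem C_rotate' {x : E × M} {l : List (E × M)} (h : B.C (l ++ [x])) : B.C (x :: l) := by
  refine ⟨by simp, ?_⟩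
  have h3 := h.pow 3
  have : (List.replicate 3 (l ++ [x])).flatten = l ++ (((x :: l) ++ (x :: l)) ++ [x]) := by
    simp [List.replicate_succ]
  rw [this] at h3
  exact B.R_of_append_left (B.R_of_append_right h3)

/-- Conjugate cyclically reduced elements are cyclic rotations of each other, if the edge groups
are trivial. -/
theorem isRotated_of_conj (hA : ∀ e, B.A e = ⊥) (n : ℕ) : ∀ (g : Γ), B.len g = n →
    ∀ (l l' : List (E × M)), B.C l → B.C l' → B.P l' * g = g * B.P l → l'.IsRotated l := by
  induction n using Nat.strong_induction_on with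
  | _ n ih =>
    intro g hg l l' hl hl' h
    obtain ⟨m₀, L, hL, hgL, hlen⟩ := B.exists_red g
    have hlength : l'.length = l.length := by
      apply hl.length_eq hl' (g := g)
      rw [← h]; group
    cases L with
    | nil =>
      simp only [P_nil, mul_one] at hgL
      rcases List.eq_nil_or_concat l' with rfl | ⟨l₀', ⟨e', a'⟩, rfl⟩
      · exact absurd rfl hl'.1
      · rw [List.concat_eq_append] at *
        have h1 : B.inc 1 * B.P (l₀' ++ [(e', a' * m₀)]) = B.inc m₀ * B.P l := by
          rw [← hgL, ← h, hgL]
          simp [mul_assoc]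
        have h2 : B.R (l₀' ++ [(e', a' * m₀)]) := by
          have := hl'.red
          rw [B.R_append] at this ⊢
          refine ⟨this.1, B.R_single _, ?_⟩
          intro u hu y hy
          simp only [List.head?_cons, Option.mem_def, Option.some.injEq] at hy
          subst hy
          exact this.2.2 u hu (e', a') (by simp)
        obtain ⟨h3, h4⟩ := B.unique_trivial hA _ _ _ _ h2 hl.red h1
        subst h3
        rw [mul_one] at h4
        rw [h4]
    | cons y L =>
      obtain ⟨e, m⟩ := y
      -- the last syllable of `l'`
      rcases List.eq_nil_or_concat l' with rfl | ⟨l₀', ⟨e', a'⟩, rfl⟩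
      · exact absurd rfl hl'.1
      · rw [List.concat_eq_append] at *
        have hLlen : B.len (B.inc m * B.P L) < n := by
          rw [B.len_eq (B.R_tail hL), ← hg, ← hlen]
          simp
        by_cases h2 : a' * m₀ = 1 ∧ e = B.inv e'
        · -- the last syllable of `l'` cancels: rotate it to the front
          obtain ⟨h2, h3⟩ := h2
          have h4 := ih _ hLlen (B.inc m * B.P L) rfl l ((e', a') :: l₀') hl
            (B.C_rotate' hl') (by
              have h5 : B.inc m * B.P L = (B.inc m₀ * B.t e)⁻¹ * g := by
                rw [hgL, P_cons]; simp only; group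
              have h6 : m₀⁻¹ = a' := by
                rw [← mul_eq_one_iff_inv_eq]; exact (mul_eq_one_comm.1 h2)
              have h7 : (B.inc m₀ * B.t e)⁻¹ = B.t e' * B.inc a' := by
                rw [mul_inv_rev, h3, B.t_inv, _root_.inv_inv, ← map_inv, h6]
              rw [h5, h7, mul_assoc _ g, ← h]
              simp [mul_assoc])
          refine List.IsRotated.trans ?_ h4
          exact (List.isRotated_append (l := [(e', a')]) (l' := l₀')).symm
        · -- no cancellation between `l'` and `g`
          have h3 : B.R ((l₀' ++ [(e', a' * m₀)]) ++ ((e, m) :: L)) := by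
            rw [B.R_append]
            refine ⟨?_, hL, ?_⟩
            · have := hl'.red
              rw [B.R_append] at this ⊢
              refine ⟨this.1, B.R_single _, ?_⟩
              intro u hu y hy
              simp only [List.head?_cons, Option.mem_def, Option.some.injEq] at hy
              subst hy
              exact this.2.2 u hu (e', a') (by simp)
            · intro u hu y hy hum hye
              simp only [List.getLast?_append, List.getLast?_singleton, Option.some_or,
                Option.mem_def, Option.some.injEq, List.head?_cons] at hu hy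
              subst hu; subst hy
              rw [hA, Subgroup.mem_bot] at hum
              exact h2 ⟨hum, hye⟩
          have h4 : B.inc 1 * B.P ((l₀' ++ [(e', a' * m₀)]) ++ ((e, m) :: L)) =
              B.inc m₀ * B.P (((e, m) :: L) ++ l) := by
            rw [B.P_append ((e, m) :: L) l, ← mul_assoc, ← hgL, ← h, hgL]
            simp [mul_assoc]
          have h5 : B.R (((e, m) :: L) ++ l) := by
            by_contra hnr
            have h6 : B.len (B.inc m₀ * B.P (((e, m) :: L) ++ l)) + 2 ≤
                (((e, m) :: L) ++ l).length := by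
              rw [B.R_append] at hnr
              push Not at hnr
              obtain ⟨u, hu, y, hy, hum, hye⟩ := hnr hL hl.red
              rw [B.len_inc_mul]
              obtain ⟨L₀, hL₀⟩ : ∃ L₀, (e, m) :: L = L₀ ++ [u] := by
                rcases List.eq_nil_or_concat ((e, m) :: L) with h7 | ⟨L₀, u', h7⟩
                · simp at h7
                · rw [List.concat_eq_append] at h7
                  rw [h7] at hu
                  simp only [List.getLast?_append, List.getLast?_singleton, Option.some_or,
                    Option.mem_def, Option.some.injEq] at hu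
                  subst hu
                  exact ⟨L₀, h7⟩
              obtain ⟨l₁, hl₁⟩ : ∃ l₁, l = y :: l₁ := by
                cases l with
                | nil => simp at hy
                | cons z l₁ =>
                  simp only [List.head?_cons, Option.mem_def, Option.some.injEq] at hy
                  subst hy
                  exact ⟨l₁, rfl⟩
              obtain ⟨b, hb, hb'⟩ := B.pinch_left _ _ hum
              have h8 : B.P (((e, m) :: L) ++ l) = B.P L₀ * (B.inc (b * y.2) * B.P l₁) := by
                rw [hL₀, hl₁, P_append, P_append, P_cons, P_cons, P_nil, hye, map_mul, ← hb']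
                simp only [mul_assoc, one_mul]
              rw [h8, hL₀, hl₁]
              have h9 := B.len_P_mul L₀ (B.inc (b * y.2) * B.P l₁)
              have h10 : B.len (B.inc (b * y.2) * B.P l₁) = l₁.length := by
                rw [B.len_inc_mul, B.len_P]
                apply B.R_tail (x := y)
                rw [← hl₁]
                exact hl.red
              simp only [List.length_append, List.length_cons, List.length_nil]
              omega
            rw [← h4, B.len_eq h3] at h6
            simp only [List.length_append, List.length_cons, List.length_nil] at h6 hlength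
            omega
          obtain ⟨h6, h7⟩ := B.unique_trivial hA _ _ _ _ h3 h5 h4
          subst h6
          -- the first letters agree
          have h8 : ∃ c l₁', l₀' ++ [(e', a')] = (e, c) :: l₁' := by
            cases l₀' with
            | nil =>
              simp only [List.nil_append, List.cons_append, List.singleton_append,
                List.cons.injEq, Prod.mk.injEq] at h7 ⊢
              exact ⟨_, _, ⟨h7.1.1, rfl⟩, rfl⟩
            | cons z l₁' =>
              simp only [List.cons_append, List.cons.injEq] at h7 ⊢
              obtain ⟨rfl, -⟩ := h7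
              exact ⟨_, _, rfl, rfl⟩
          obtain ⟨c, l₁', h8⟩ := h8
          rw [h8] at h hl' ⊢
          have h9 : B.len (B.inc (c⁻¹ * m) * B.P L) < n := by
            rw [B.len_inc_mul] at hLlen ⊢
            exact hLlen
          have h10 := ih _ h9 (B.inc (c⁻¹ * m) * B.P L) rfl l (l₁' ++ [(e, c)]) hl
            (B.C_rotate hl') (by
              have h11 : B.inc (c⁻¹ * m) * B.P L = (B.t e * B.inc c)⁻¹ * g := by
                rw [hgL, P_cons]; simp only [map_mul, map_inv, map_one]; group
              rw [h11, mul_assoc _ g, ← h]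
              simp only [P_append, P_cons, P_nil]
              group)
          refine List.IsRotated.trans ?_ h10
          exact List.isRotated_append (l := [(e, c)]) (l' := l₁')

end Brit

end Pool.Agent.R708
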