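import Pool.Agent.R708.Britton2

/-!
# HNN extensions and multi-letter HNN extensions have a Britton lemma
-/

open Monoid

namespace Pool.Agent.R708

universe u v w

section Single

variable {L : Type u} [Group L] {A B : Subgroup L} (φ : A ≃* B)

open HNNExtension HNNExtension.NormalWord

theorem units_ne_neg {a b : ℤˣ} : b ≠ -a ↔ a = b := by
  rcases Int.units_eq_one_or a with rfl | rfl <;> rcases Int.units_eq_one_or b with rfl | rfl <;>
    simp

/-- The product of a list of syllables in an HNN extension. -/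
def hprod (l : List (ℤˣ × L)) : HNNExtension L A B φ :=
  (l.map (fun x => HNNExtension.t ^ (x.1 : ℤ) * HNNExtension.of x.2)).prod

theorem hprod_not_mem_range (l : List (ℤˣ × L)) (hl : l ≠ [])
    (hc : l.IsChain (fun a b => a.2 ∈ toSubgroup A B a.1 → a.1 = b.1)) (m : L) :
    hprod φ l ≠ HNNExtension.of m := by
  intro h
  let w : ReducedWord L A B := ⟨1, l, hc⟩
  have : w.toList = [] := by
    apply ReducedWord.toList_eq_nil_of_mem_of_range φ w
    refine ⟨m, ?_⟩
    rw [← h]
    simp [w, ReducedWord.prod, hprod]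
  exact hl this

theorem hnn_pinch (u : ℤˣ) (a : L) (ha : a ∈ toSubgroup A B u) :
    ∃ b ∈ toSubgroup A B (-u), (HNNExtension.t : HNNExtension L A B φ) ^ (u : ℤ) *
      HNNExtension.of a * (HNNExtension.t ^ (u : ℤ))⁻¹ = HNNExtension.of b := by
  rcases Int.units_eq_one_or u with rfl | rfl
  · refine ⟨φ ⟨a, ha⟩, (φ ⟨a, ha⟩).2, ?_⟩
    have := HNNExtension.equiv_eq_conj (φ := φ) ⟨a, ha⟩
    simpa using this.symm
  · refine ⟨φ.symm ⟨a, ha⟩, ?_, ?_⟩
    · rw [_root_.neg_neg]
      exact (φ.symm ⟨a, ha⟩).2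
    · have := HNNExtension.equiv_symm_eq_conj (φ := φ) ⟨a, ha⟩
      simpa using this.symm

/-- HNN extensions. -/
def hnnBrit : Brit L (HNNExtension L A B φ) ℤˣ where
  inc := HNNExtension.of
  inj := HNNExtension.of_injective φ
  inv u := -u
  inv_inv := _root_.neg_neg
  inv_ne u := by rcases Int.units_eq_one_or u with rfl | rfl <;> decide
  t u := HNNExtension.t ^ (u : ℤ)
  t_inv u := by simp
  A u := toSubgroup A B u
  pinch := hnn_pinch φ
  gen S h1 h2 := by
    rw [eq_top_iff]
    intro x _
    induction x using HNNExtension.induction_on with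
    | of g => exact h1 g
    | t => simpa using h2 1
    | mul x y hx hy => exact S.mul_mem (hx trivial) (hy trivial)
    | inv x hx => exact S.inv_mem (hx trivial)
  britton l hl hr m := by
    apply hprod_not_mem_range φ l hl
    refine hr.imp ?_
    intro a b hab ha
    exact units_ne_neg.1 (hab ha)

end Single

section Multi

variable {ι : Type v} {L : Type u} [Group L] (A B : ι → Subgroup L) (φ : ∀ i, A i ≃* B i)

open HNNExtension HNNExtension.NormalWord

/-- The multi-letter HNN extension. -/
abbrev MHNN : Type _ := PushoutI (fun i => (HNNExtension.of : L →* HNNExtension L (A i) (B i) (φ i)))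

/-- The product of syllables. -/
noncomputable def mprod (l : List ((ι × ℤˣ) × L)) : MHNN A B φ :=
  prodl (PushoutI.base _) (fun e : ι × ℤˣ =>
    (PushoutI.of e.1 (HNNExtension.t ^ (e.2 : ℤ)) : MHNN A B φ)) l

theorem mprod_cons (i : ι) (u : ℤˣ) (a : L) (l : List ((ι × ℤˣ) × L)) :
    mprod A B φ (((i, u), a) :: l) =
      PushoutI.of i (HNNExtension.t ^ (u : ℤ) * HNNExtension.of a) * mprod A B φ l := by
  rw [mprod, prodl, List.map_cons, List.prod_cons, map_mul]
  congr 2
  exact (PushoutI.of_apply_eq_base _ i a).symm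

theorem hprod_cons {A B : Subgroup L} (φ : A ≃* B) (x : ℤˣ × L) (l : List (ℤˣ × L)) :
    hprod φ (x :: l) = HNNExtension.t ^ (x.1 : ℤ) * HNNExtension.of x.2 * hprod φ l := by
  simp [hprod]

theorem block (l : List ((ι × ℤˣ) × L)) : ∀ (i : ι) (u : ℤˣ) (a : L),
    Red (fun e : ι × ℤˣ => toSubgroup (A e.1) (B e.1) e.2) (fun e => (e.1, -e.2))
      (((i, u), a) :: l) →
    ∃ (r : List (ℤˣ × L)) (w : CoprodI.Word (fun i => HNNExtension L (A i) (B i) (φ i))),
      ((u, a) :: r).IsChain (fun a b => a.2 ∈ toSubgroup (A i) (B i) a.1 → a.1 = b.1) ∧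
      PushoutI.Reduced (fun i => (HNNExtension.of : L →* HNNExtension L (A i) (B i) (φ i))) w ∧
      w.fstIdx ≠ some i ∧
      mprod A B φ (((i, u), a) :: l) =
        PushoutI.of i (hprod (φ i) ((u, a) :: r)) * PushoutI.ofCoprodI w.prod := by
  classical
  induction l with
  | nil =>
    intro i u a _
    refine ⟨[], CoprodI.Word.empty, List.isChain_singleton _, ?_, ?_, ?_⟩
    · intro g hg
      simp [CoprodI.Word.empty] at hg
    · simp [CoprodI.Word.fstIdx, CoprodI.Word.empty]
    · rw [mprod_cons, hprod_cons]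
      simp [hprod, mprod, prodl]
  | cons x l ih =>
    intro i u a hred
    obtain ⟨⟨i', u'⟩, a'⟩ := x
    have h1 := List.isChain_cons_cons.1 hred
    obtain ⟨r₁, w₁, hr₁, hw₁, hi₁, hp₁⟩ := ih i' u' a' h1.2
    by_cases hii : i' = i
    · subst hii
      refine ⟨(u', a') :: r₁, w₁, ?_, hw₁, hi₁, ?_⟩
      · rw [List.isChain_cons_cons]
        refine ⟨?_, hr₁⟩
        intro ha
        have := h1.1 ha
        apply units_ne_neg.1
        intro h2
        apply this
        simp only at h2 ⊢
        rw [h2]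
      · rw [mprod_cons, hp₁, ← mul_assoc, ← map_mul, hprod_cons _ (u, a)]
    · have hnr : hprod (φ i') ((u', a') :: r₁) ∉
          (HNNExtension.of : L →* HNNExtension L (A i') (B i') (φ i')).range := by
        rintro ⟨m, hm⟩
        exact hprod_not_mem_range (φ i') _ (by simp) hr₁ m hm.symm
      have hn1 : hprod (φ i') ((u', a') :: r₁) ≠ 1 := by
        intro h
        apply hnr
        rw [h]
        exact one_mem _
      refine ⟨[], CoprodI.Word.cons (hprod (φ i') ((u', a') :: r₁)) w₁ hi₁ hn1,
        List.isChain_singleton _, ?_, ?_, ?_⟩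
      · intro g hg
        simp only [CoprodI.Word.cons, List.mem_cons] at hg
        rcases hg with rfl | hg
        · exact hnr
        · exact hw₁ g hg
      · rw [CoprodI.Word.fstIdx_cons]
        intro h
        exact hii (Option.some.inj h)
      · rw [mprod_cons, hp₁, CoprodI.Word.prod_cons, map_mul PushoutI.ofCoprodI,
          PushoutI.ofCoprodI_of, hprod_cons]
        simp [hprod]

/-- Multi-letter HNN extensions. -/
noncomputable def mhnnBrit : Brit L (MHNN A B φ) (ι × ℤˣ) where
  inc := PushoutI.base _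
  inj := PushoutI.base_injective (fun i => HNNExtension.of_injective (φ i))
  inv e := (e.1, -e.2)
  inv_inv e := by simp
  inv_ne e := by
    intro h
    have := congrArg Prod.snd h
    simp only at this
    rcases Int.units_eq_one_or e.2 with h1 | h1 <;> rw [h1] at this <;> revert this <;> decide
  t e := PushoutI.of e.1 (HNNExtension.t ^ (e.2 : ℤ))
  t_inv e := by simp
  A e := toSubgroup (A e.1) (B e.1) e.2
  pinch e a ha := by
    obtain ⟨b, hb, h⟩ := hnn_pinch (φ e.1) e.2 a ha
    refine ⟨b, hb, ?_⟩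
    rw [← PushoutI.of_apply_eq_base _ e.1 a, ← PushoutI.of_apply_eq_base _ e.1 b, ← map_mul,
      ← map_inv, ← map_mul]
    congr 1
  gen S h1 h2 := by
    rw [eq_top_iff]
    intro x _
    induction x using PushoutI.induction_on with
    | of i g =>
      induction g using HNNExtension.induction_on with
      | of g =>
        have := h1 g
        rw [← PushoutI.of_apply_eq_base _ i g] at this
        exact this
      | t => simpa using h2 (i, 1)
      | mul x y hx hy =>
        rw [map_mul]
        exact S.mul_mem (hx trivial) (hy trivial)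
      | inv x hx =>
        rw [map_inv]
        exact S.inv_mem (hx trivial)
    | base h => exact h1 h
    | mul x y hx hy => exact S.mul_mem (hx trivial) (hy trivial)
  britton l hl hr m := by
    obtain ⟨⟨⟨i, u⟩, a⟩, l', rfl⟩ := List.exists_cons_of_ne_nil hl
    obtain ⟨r, w, hr', hw, hi, hp⟩ := block A B φ l' i u a hr
    intro h
    have hp' : (PushoutI.base (fun i => (HNNExtension.of : L →* HNNExtension L (A i) (B i) (φ i))) m
        : MHNN A B φ) = PushoutI.of i (hprod (φ i) ((u, a) :: r)) *
      PushoutI.ofCoprodI w.prod := by rw [← hp]; exact h.symm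
    have hnr : hprod (φ i) ((u, a) :: r) ∉
        (HNNExtension.of : L →* HNNExtension L (A i) (B i) (φ i)).range := by
      rintro ⟨m, hm⟩
      exact hprod_not_mem_range (φ i) _ (by simp) hr' m hm.symm
    have hn1 : hprod (φ i) ((u, a) :: r) ≠ 1 := by
      intro h
      apply hnr
      rw [h]
      exact one_mem _
    classical
    have hred : PushoutI.Reduced
        (fun i => (HNNExtension.of : L →* HNNExtension L (A i) (B i) (φ i)))
        (CoprodI.Word.cons (hprod (φ i) ((u, a) :: r)) w hi hn1) := by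
      intro g hg
      simp only [CoprodI.Word.cons, List.mem_cons] at hg
      rcases hg with rfl | hg
      · exact hnr
      · exact hw g hg
    have := hred.eq_empty_of_mem_range (fun i => HNNExtension.of_injective (φ i)) ⟨m, by
      rw [hp', CoprodI.Word.prod_cons, map_mul PushoutI.ofCoprodI, PushoutI.ofCoprodI_of]⟩
    have h2 := congrArg CoprodI.Word.toList this
    simp [CoprodI.Word.cons, CoprodI.Word.empty] at h2

theorem mhnn_rel (i : ι) (a : A i) :
    (mhnnBrit A B φ).t (i, 1) * (mhnnBrit A B φ).inc (a : L) * ((mhnnBrit A B φ).t (i, 1))⁻¹ =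
      (mhnnBrit A B φ).inc (φ i a : L) := by
  have h := HNNExtension.equiv_eq_conj (φ := φ i) a
  have h2 : (PushoutI.of i (HNNExtension.t ^ ((1 : ℤˣ) : ℤ)) : MHNN A B φ) *
    PushoutI.of i (HNNExtension.of (a : L)) *
      (PushoutI.of i (HNNExtension.t ^ ((1 : ℤˣ) : ℤ)))⁻¹ =
    PushoutI.of i (HNNExtension.of (φ i a : L)) := by
    rw [← map_mul, ← map_inv, ← map_mul, h]
    simp
  rw [PushoutI.of_apply_eq_base _ i (a : L)] at h2
  rw [PushoutI.of_apply_eq_base _ i (φ i a : L)] at h2
  exact h2

end Multi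

theorem zpowersHom_surj {L : Type u} [Group L] (w : L) (x : (zpowersHom L w).range) :
    ∃ j : ℤ, (x : L) = w ^ j := by
  obtain ⟨x, n, rfl⟩ := x
  exact ⟨Multiplicative.toAdd n, rfl⟩

/-- There is an isomorphism between infinite cyclic groups matching given generators. -/
theorem exists_equiv {L : Type u} [Group L] (w w' : L)
    (hw : Function.Injective (zpowersHom L w)) (hw' : Function.Injective (zpowersHom L w')) :
    ∃ (φ : (zpowersHom L w).range ≃* (zpowersHom L w').range),
      ∀ (h : w ∈ (zpowersHom L w).range), ((φ ⟨w, h⟩ : (zpowersHom L w').range) : L) = w' := by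
  refine ⟨(MonoidHom.ofInjective hw).symm.trans (MonoidHom.ofInjective hw'), ?_⟩
  intro h
  have h1 : (MonoidHom.ofInjective hw) (Multiplicative.ofAdd 1) = ⟨w, h⟩ := by
    apply Subtype.ext
    rw [MonoidHom.ofInjective_apply, zpowersHom_apply, toAdd_ofAdd, zpow_one]
  rw [MulEquiv.trans_apply, ← h1, MulEquiv.symm_apply_apply, MonoidHom.ofInjective_apply,
    zpowersHom_apply, toAdd_ofAdd, zpow_one]

/-- Multi-letter HNN extensions with cyclic edge groups. -/
theorem exists_mhnn {ι L : Type u} [Group L] (w w' : ι → L)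
    (hw : ∀ i, Function.Injective (zpowersHom L (w i)))
    (hw' : ∀ i, Function.Injective (zpowersHom L (w' i))) :
    ∃ (H : Type u) (_ : Group H) (B₂ : Brit L H (ι × ℤˣ)),
      (∀ i, ∀ z ∈ B₂.A (i, 1), ∃ j : ℤ, z = w i ^ j) ∧
      (∀ i, ∀ z ∈ B₂.A (i, -1), ∃ j : ℤ, z = w' i ^ j) ∧
      ∀ i, B₂.t (i, 1) * B₂.inc (w i) * (B₂.t (i, 1))⁻¹ = B₂.inc (w' i) := by
  choose φ hφ using fun i => exists_equiv (w i) (w' i) (hw i) (hw' i)
  refine ⟨MHNN _ _ φ, inferInstance, mhnnBrit _ _ φ, ?_, ?_, ?_⟩
  · intro i z hz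
    exact zpowersHom_surj (w i) ⟨z, hz⟩
  · intro i z hz
    exact zpowersHom_surj (w' i) ⟨z, hz⟩
  · intro i
    have h : w i ∈ (zpowersHom L (w i)).range :=
      ⟨Multiplicative.ofAdd 1, by rw [zpowersHom_apply, toAdd_ofAdd, zpow_one]⟩
    have := mhnn_rel _ _ φ i ⟨w i, h⟩
    rw [hφ i h] at this
    exact this

/-- Free products with an infinite cyclic group. -/
theorem exists_free {M : Type u} [Group M] :
    ∃ (L : Type u) (_ : Group L) (B₁ : Brit M L ℤˣ), (∀ e, B₁.A e = ⊥) ∧
      ∀ e, B₁.inv e = -e := by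
  refine ⟨HNNExtension M ⊥ ⊥ (MulEquiv.refl (⊥ : Subgroup M)), inferInstance,
    hnnBrit (MulEquiv.refl (⊥ : Subgroup M)), ?_, fun e => rfl⟩
  intro e
  rcases Int.units_eq_one_or e with rfl | rfl <;> rfl

end Pool.Agent.R708
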