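import Pool.Agent.R708.Britton2
import Pool.Agent.R708.AltFive

/-!
# Tools for the proof that extendable endomorphisms are inner or trivial
-/

namespace Pool.Agent.R708

universe u v w

namespace Brit

section General

variable {M : Type u} {Γ : Type v} {E : Type w} [Group M] [Group Γ] (B : Brit M Γ E)

/-- A homomorphism from a group of finite exponent is conjugate into the base, if some element of
the image is nontrivial and elements of finite order are not conjugate into edge groups. -/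
theorem exists_base {K : Type u} [Group K] (n : ℕ) (hn : 0 < n) (hK : ∀ k : K, k ^ n = 1)
    (b : K →* Γ) (k₀ : K) (hk₀ : b k₀ ≠ 1) (hNE : ∀ m : M, m ≠ 1 → m ^ n = 1 → B.NE m) :
    ∃ (h : Γ) (γ : K →* M), ∀ k, b k = h * B.inc (γ k) * h⁻¹ := by
  have htors : ∀ k, ∃ g m, b k = g * B.inc m * g⁻¹ ∧ m ^ n = 1 ∧ (b k ≠ 1 → m ≠ 1) := by
    intro k
    have h1 : (b k) ^ n = 1 := by rw [← map_pow, hK, map_one]
    obtain ⟨g, m, hg⟩ := B.torsion_conj hn h1
    refine ⟨g, m, hg, ?_, ?_⟩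
    · apply B.inj
      rw [map_pow, map_one]
      have : B.inc m = g⁻¹ * b k * g⁻¹⁻¹ := by rw [hg]; group
      rw [this, conj_pow, h1]
      group
    · rintro h2 rfl
      apply h2
      rw [hg]
      simp
  obtain ⟨h₁, m₁, hh₁, hm₁, hm₁'⟩ := htors k₀
  have hm₁ne := hm₁' hk₀
  have key : ∀ k, ∃ m, h₁⁻¹ * b k * h₁ = B.inc m := by
    intro k
    by_cases hk : b k = 1
    · exact ⟨1, by rw [hk]; simp⟩
    · obtain ⟨h₂, m₂, hh₂, hm₂, hm₂'⟩ := htors k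
      have hm₂ne := hm₂' hk
      have h3 : ((h₁⁻¹ * h₂) * B.inc m₂ * (h₁⁻¹ * h₂)⁻¹ * B.inc m₁) ^ n = 1 := by
        have h4 : (h₁⁻¹ * h₂) * B.inc m₂ * (h₁⁻¹ * h₂)⁻¹ * B.inc m₁ =
            h₁⁻¹ * b (k * k₀) * h₁⁻¹⁻¹ := by
          rw [map_mul, hh₂, hh₁]
          group
        rw [h4, conj_pow, ← map_pow, hK, map_one]
        group
      obtain ⟨m, hm⟩ := B.conj_mem_base (hNE m₂ hm₂ne hm₂) (hNE m₁ hm₁ne hm₁) hn h3
      refine ⟨m * m₂ * m⁻¹, ?_⟩
      rw [map_mul, map_mul, map_inv, ← hm, hh₂]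
      group
  choose γ hγ using key
  refine ⟨h₁, ⟨⟨γ, ?_⟩, ?_⟩, ?_⟩
  · apply B.inj
    rw [← hγ]
    simp
  · intro k k'
    apply B.inj
    simp only
    rw [← hγ, map_mul, map_mul, ← hγ, ← hγ]
    group
  · intro k
    change b k = h₁ * B.inc (γ k) * h₁⁻¹
    rw [← hγ]
    group

variable {B} in
theorem C.zpow_not_conj {l : List (E × M)} (h : B.C l) {n : ℤ} (hn : n ≠ 0) (g : Γ) (m : M) :
    B.P l ^ n ≠ g * B.inc m * g⁻¹ := by
  rcases Int.natAbs_eq n with h1 | h1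
  · rw [h1, zpow_natCast, ← B.P_pow]
    exact (h.cpow (by omega)).not_conj_inc g m
  · rw [h1, zpow_neg, zpow_natCast, ← B.P_pow]
    intro h2
    apply (h.cpow (N := n.natAbs) (by omega)).not_conj_inc g m⁻¹
    rw [← _root_.inv_inv (B.P _), h2]
    simp [mul_assoc]

/-- The key computation with products of three conjugates. -/
theorem P_three (m₀ : M) (e : E) (m : M) (l : List (E × M)) (k₁ k₂ k₃ y₁ y₂ y₃ : M) :
    B.inc m₀ * B.P (B.blk m₀ e m l k₁ y₁ ++ (B.blk m₀ e m l k₂ y₂ ++ B.blk m₀ e m l k₃ y₃)) *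
      (B.inc m₀)⁻¹ =
    ((B.inc m₀ * B.P ((e, m) :: l)) * B.inc k₁ * (B.inc m₀ * B.P ((e, m) :: l))⁻¹ * B.inc y₁) *
    (((B.inc m₀ * B.P ((e, m) :: l)) * B.inc k₂ * (B.inc m₀ * B.P ((e, m) :: l))⁻¹ * B.inc y₂) *
    ((B.inc m₀ * B.P ((e, m) :: l)) * B.inc k₃ * (B.inc m₀ * B.P ((e, m) :: l))⁻¹ * B.inc y₃)) := by
  rw [← B.P_blk, ← B.P_blk, ← B.P_blk, P_append, P_append]
  group

theorem P_two (m₀ : M) (e : E) (m : M) (l : List (E × M)) (k₁ k₂ y₁ y₂ : M) :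
    B.inc m₀ * B.P (B.blk m₀ e m l k₁ y₁ ++ B.blk m₀ e m l k₂ y₂) * (B.inc m₀)⁻¹ =
    ((B.inc m₀ * B.P ((e, m) :: l)) * B.inc k₁ * (B.inc m₀ * B.P ((e, m) :: l))⁻¹ * B.inc y₁) *
    ((B.inc m₀ * B.P ((e, m) :: l)) * B.inc k₂ * (B.inc m₀ * B.P ((e, m) :: l))⁻¹ *
      B.inc y₂) := by
  rw [← B.P_blk, ← B.P_blk, P_append]
  group

/-- The words with three and with two factors are not conjugate, unless `x` lies in the base. -/
theorem unbalanced (x : Γ) {k₁ k₂ k₃ k₄ y₁ y₂ y₃ : M} (hk₁ : B.NE k₁) (hk₂ : B.NE k₂)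
    (hk₃ : B.NE k₃) (hk₄ : B.NE k₄) (hy₁ : B.NE y₁) (hy₂ : B.NE y₂) (hy₃ : B.NE y₃) (g : Γ)
    (h : (x * B.inc k₁ * x⁻¹ * B.inc y₂) * ((x * B.inc k₂ * x⁻¹ * B.inc y₃) *
        (x * B.inc k₃ * x⁻¹ * B.inc y₁)) =
      g * ((x * B.inc k₁ * x⁻¹ * B.inc y₂) * (x * B.inc k₄ * x⁻¹ * B.inc y₁)) * g⁻¹) :
    ∃ m, x = B.inc m := by
  obtain ⟨m₀, l, hl, hxl, -⟩ := B.exists_red x
  cases l with
  | nil => exact ⟨m₀, by simp [hxl]⟩
  | cons z l =>
    exfalso
    obtain ⟨e, m⟩ := z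
    rw [hxl, ← B.P_three, ← B.P_two] at h
    have c3 : B.C (B.blk m₀ e m l k₁ y₂ ++ (B.blk m₀ e m l k₂ y₃ ++ B.blk m₀ e m l k₃ y₁)) :=
      ((B.blk_blk m₀ e m l hk₁ hy₂ hl).append ((B.blk_blk m₀ e m l hk₂ hy₃ hl).append
        (B.blk_blk m₀ e m l hk₃ hy₁ hl))).c
    have c2 : B.C (B.blk m₀ e m l k₁ y₂ ++ B.blk m₀ e m l k₄ y₁) :=
      ((B.blk_blk m₀ e m l hk₁ hy₂ hl).append (B.blk_blk m₀ e m l hk₄ hy₁ hl)).c
    have h2 := c2.length_eq c3 (g := (B.inc m₀)⁻¹ * g * B.inc m₀) (by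
      have h3 : B.P (B.blk m₀ e m l k₁ y₂ ++ (B.blk m₀ e m l k₂ y₃ ++ B.blk m₀ e m l k₃ y₁)) =
        (B.inc m₀)⁻¹ * (B.inc m₀ * B.P (B.blk m₀ e m l k₁ y₂ ++ (B.blk m₀ e m l k₂ y₃ ++
          B.blk m₀ e m l k₃ y₁)) * (B.inc m₀)⁻¹) * B.inc m₀ := by group
      rw [h3, h]
      group)
    simp only [List.length_append, length_blk, List.length_cons] at h2
    omega

end General

section Trivial

variable {M : Type u} {Γ : Type v} {E : Type w} [Group M] [Group Γ] (B : Brit M Γ E)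
  (hA : ∀ e, B.A e = ⊥)

include hA

theorem R_of_ne_one (l : List (E × M)) (h : ∀ x ∈ l, x.2 ≠ 1) : B.R l := by
  induction l with
  | nil => exact B.R_nil
  | cons x l ih =>
    rw [B.R_cons_iff]
    refine ⟨ih fun y hy => h y (List.mem_cons_of_mem _ hy), ?_⟩
    intro y _ hx
    rw [hA, Subgroup.mem_bot] at hx
    exact absurd hx (h x (by simp))

theorem C_of_ne_one (l : List (E × M)) (hl : l ≠ []) (h : ∀ x ∈ l, x.2 ≠ 1) : B.C l := by
  refine ⟨hl, B.R_of_ne_one hA _ ?_⟩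
  intro x hx
  rw [List.mem_append] at hx
  exact h x (hx.elim id id)

theorem NE_of_ne_one {m : M} (h : m ≠ 1) : B.NE m := by
  intro c e hc
  rw [hA, Subgroup.mem_bot, conj_eq_one_iff] at hc
  exact h hc

end Trivial

end Brit

/-! ### Periodic lists -/

section Lists

variable {α : Type u}

theorem getElem_flatten_replicate (Z : List α) (hZ : 0 < Z.length) (N : ℕ) (k : ℕ)
    (hk : k < (List.replicate N Z).flatten.length) :
    (List.replicate N Z).flatten[k] = Z[k % Z.length]'(Nat.mod_lt _ hZ) := by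
  induction N generalizing k with
  | zero => simp at hk
  | succ N ih =>
    simp only [List.replicate_succ, List.flatten_cons] at hk ⊢
    by_cases h : k < Z.length
    · rw [List.getElem_append_left h]
      congr 1
      exact (Nat.mod_eq_of_lt h).symm
    · push Not at h
      rw [List.getElem_append_right h, ih]
      congr 1
      exact (Nat.mod_eq_sub_mod h).symm

theorem getElem_of_isRotated (Z : List α) (hZ : 0 < Z.length) (N : ℕ) {D : List α}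
    (h : (List.replicate N Z).flatten.IsRotated D) :
    ∃ d, ∀ k (hk : k < D.length), D[k] = Z[(k + d) % Z.length]'(Nat.mod_lt _ hZ) := by
  obtain ⟨d, rfl⟩ := h
  refine ⟨d, fun k hk => ?_⟩
  rw [List.getElem_rotate, getElem_flatten_replicate Z hZ]
  congr 1
  apply Nat.mod_mod_of_dvd
  simp

end Lists

end Pool.Agent.R708
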