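import Pool.Agent.R708.ExtendMain

/-!
# Extendable endomorphisms are inner or trivial: abstract form
-/

namespace Pool.Agent.R708

universe u v w

section Final

variable {G : Type u} [Group G] {Q : Set (G × G × G)}

theorem extend_main {L H : Type u} [Group L] [Group H] (B₁ : Brit (MG G) L ℤˣ)
    (hA₁ : ∀ e, B₁.A e = ⊥)
    (hinv₁ : ∀ e, B₁.inv e = -e) (B₂ : Brit L H (Idx Q × ℤˣ))
    (hA₂ : ∀ i, ∀ z ∈ B₂.A (i, 1), ∃ j : ℤ, z = B₁.P (wd i) ^ j)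
    (hA₂' : ∀ i, ∀ z ∈ B₂.A (i, -1), ∃ j : ℤ, z = B₁.P (wd' i) ^ j)
    (rel : ∀ i, B₂.t (i, 1) * B₂.inc (B₁.P (wd i)) * (B₂.t (i, 1))⁻¹ = B₂.inc (B₁.P (wd' i)))
    (hQ : ∀ q ∈ Q, q.1 ≠ 1 ∧ q.2.1 ≠ 1 ∧ q.2.2 ≠ 1) (hdiag : ∀ g : G, g ≠ 1 → (g, g, g) ∈ Q)
    (hrigid : ∀ σ : G →* G, Function.Injective σ →
      (∀ q ∈ Q, (σ q.1, σ q.2.1, σ q.2.2) ∈ Q) → ∀ g, σ g = g)
    (α : G →* G) (β : H →* H)
    (hβ : ∀ g, β (B₂.inc (B₁.inc (gM g))) = B₂.inc (B₁.inc (gM (α g)))) :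
    (∃ c, ∀ g, α g = c * g * c⁻¹) ∨ ∀ g, α g = 1 := by
  classical
  -- the group `G` may be assumed nontrivial
  by_cases hG : ∀ g : G, g = 1
  · right
    intro g
    exact hG _
  push Not at hG
  obtain ⟨g₀, hg₀⟩ := hG
  set F : G →* H := (B₂.inc.comp B₁.inc).comp (gM.comp α) with hF
  set b : KG G →* H := β.comp ((MulAut.conj (B₂.inc (B₁.t 1))).toMonoidHom.comp
    ((B₂.inc.comp B₁.inc).comp (MonoidHom.inr G (KG G)))) with hb
  have hb' : ∀ y a, β (B₂.inc (B₁.t 1 * B₁.inc (kM y a) * (B₁.t 1)⁻¹)) = b (sK y a) := by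
    intro y a
    change _ = β (B₂.inc (B₁.t 1) * B₂.inc (B₁.inc (kM y a)) * (B₂.inc (B₁.t 1))⁻¹)
    rw [map_mul B₂.inc, map_mul B₂.inc, map_inv B₂.inc]
  have hF' : ∀ g, β (B₂.inc (B₁.inc (gM g))) = F g := hβ
  have h6 : ∀ y a₁ a₂ a₃ g₁ g₂ g₃, β (B₂.inc (B₁.P (Z6 y a₁ a₂ a₃ g₁ g₂ g₃))) =
      b (sK y a₁) * F g₁ * (b (sK y a₂) * F g₂) * (b (sK y a₃) * F g₃) := by
    intro y a₁ a₂ a₃ g₁ g₂ g₃
    rw [P_Z6 B₁ hinv₁, ← hb', ← hb', ← hb', ← hF', ← hF', ← hF']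
    simp only [map_mul]
  have h4 : ∀ y a₁ a₂ g₁ g₂, β (B₂.inc (B₁.P (Z4 y a₁ a₂ g₁ g₂))) =
      b (sK y a₁) * F g₁ * (b (sK y a₂) * F g₂) := by
    intro y a₁ a₂ g₁ g₂
    rw [P_Z4 B₁ hinv₁, ← hb', ← hb', ← hF', ← hF']
    simp only [map_mul]
  -- the relations
  have hrel : ∀ (y : Set G) (q₁ q₂ q₃ : G), (q₁, q₂, q₃) ∈ Q → ∃ τ : H,
      b (sK y x1) * F q₁ * (b (sK y x2) * F q₂) * (b (sK y x3) * F q₃⁻¹) =
        τ * (b (sK y x1) * F q₁ * (b (sK y x2) * F q₁⁻¹)) * τ⁻¹ := by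
    intro y q₁ q₂ q₃ hq
    refine ⟨(β (B₂.t ((y, ⟨(q₁, q₂, q₃), hq⟩), 1)))⁻¹, ?_⟩
    have h1 := congrArg β (rel (y, ⟨(q₁, q₂, q₃), hq⟩))
    rw [map_mul, map_mul, map_inv] at h1
    have h2 := h6 y x1 x2 x3 q₁ q₂ q₃⁻¹
    have h3 := h4 y x1 x2 q₁ q₁⁻¹
    rw [← h2, ← h3]
    change β (B₂.inc (B₁.P (wd (y, ⟨(q₁, q₂, q₃), hq⟩)))) = (β (B₂.t _))⁻¹ *
      β (B₂.inc (B₁.P (wd' (y, ⟨(q₁, q₂, q₃), hq⟩)))) * (β (B₂.t _))⁻¹⁻¹
    rw [← h1]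
    group
  have hFinj : ∀ g, F g = 1 → α g = 1 := by
    intro g hg
    have h1 : B₁.inc (gM (α g)) = 1 := B₂.inj (by rw [map_one]; exact hg)
    have h2 : gM (α g) = 1 := B₁.inj (by rw [map_one]; exact h1)
    rw [← gM_fst (α g), h2]
    rfl
  by_cases hcase : ∃ y, ∀ a, b (sK y a) = 1
  · -- `K` is killed
    right
    obtain ⟨y, hy⟩ := hcase
    intro g
    by_cases hg : g = 1
    · rw [hg, map_one]
    · obtain ⟨τ, hτ⟩ := hrel y g g g (hdiag g hg)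
      rw [hy, hy, hy, map_inv] at hτ
      apply hFinj
      have : F g = 1 * F g * (1 * F g) * (1 * (F g)⁻¹) := by group
      rw [this, hτ]
      group
  · push Not at hcase
    have binj : ∀ y a, b (sK y a) = 1 → a = 1 := by
      intro y a ha
      rcases S5_hom (b.comp (sK y)) with h | h
      · exact h (by rw [map_one]; exact ha)
      · obtain ⟨a', ha'⟩ := hcase y
        exact absurd (h a') ha'
    left
    -- `α` is injective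
    have αinj : ∀ g, α g = 1 → g = 1 := by
      intro g hg
      by_contra hne
      obtain ⟨τ, hτ⟩ := hrel ∅ g g g (hdiag g hne)
      have hFg : F g = 1 := by
        rw [hF]
        simp only [MonoidHom.comp_apply, hg, map_one]
      rw [map_inv, hFg] at hτ
      simp only [inv_one, mul_one, ← map_mul] at hτ
      have h1 : b (sK ∅ ((x1 * x2 * x3) ^ 2)) = 1 := by
        rw [map_pow, map_pow, hτ, conj_pow, ← map_pow, ← map_pow, x12_pow2, map_one, map_one]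
        group
      exact x123_pow2 (binj _ _ h1)
    -- level two
    obtain ⟨h₁, γ, hγ⟩ := B₂.exists_base 60 (by norm_num) KG_pow b (sK ∅ x1)
      (fun h => x1_ne (binj _ _ h))
      (fun m hm hm' => NE₂_torsion B₁ hA₁ B₂ hA₂ hA₂' hQ hm hm')
    have γne : γ (sK ∅ x1) ≠ 1 := by
      intro h
      apply x1_ne
      apply binj ∅
      rw [hγ, h]
      simp
    obtain ⟨ℓ₁, δ, hδ⟩ := B₁.exists_base 60 (by norm_num) KG_pow γ (sK ∅ x1) γne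
      (fun m hm _ => B₁.NE_of_ne_one hA₁ hm)
    set h := h₁ * B₂.inc ℓ₁ with hh
    have hbδ : ∀ k, b k = h * B₂.inc (B₁.inc (δ k)) * h⁻¹ := by
      intro k
      rw [hγ, hδ, hh]
      simp only [map_mul, map_inv]
      group
    have δinj : ∀ y a, δ (sK y a) = 1 → a = 1 := by
      intro y a hd
      apply binj y
      rw [hbδ, hd]
      simp
    -- choose `y` such that the `G`-component is trivial
    obtain ⟨y, hy⟩ : ∃ y, ∀ a, (δ (sK y a)).1 = 1 := by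
      have hc := Function.cantor_injective (fun y : Set G => (δ (sK y x1)).1)
      rw [Function.Injective] at hc
      push Not at hc
      obtain ⟨y, y', hyy, hne⟩ := hc
      refine ⟨y, ?_⟩
      rcases S5_hom (((MonoidHom.fst G (KG G)).comp δ).comp (sK y)) with hi | hi
      · exfalso
        apply x12_comm
        apply hi
        change (δ (sK y (x1 * x2))).1 = (δ (sK y (x2 * x1))).1
        have h1 : (δ (sK y' x1)).1 * (δ (sK y x2)).1 = (δ (sK y x2)).1 * (δ (sK y' x1)).1 := by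
          rw [← Prod.fst_mul, ← Prod.fst_mul, ← map_mul, ← map_mul,
            sK_comm (Ne.symm hne) x1 x2]
        simp only [map_mul, Prod.fst_mul]
        rw [hyy, h1]
      · exact hi
    -- the elements `R a = δ (sK y a)`
    have Rne : ∀ {a}, a ≠ 1 → δ (sK y a) ≠ 1 := fun ha h => ha (δinj y _ h)
    set x := h⁻¹ with hx
    have key : ∀ q₁ q₂ q₃ : G, (q₁, q₂, q₃) ∈ Q → ∃ τ : H,
        (x * B₂.inc (B₁.inc (gM (α q₁))) * x⁻¹ * B₂.inc (B₁.inc (δ (sK y x2)))) *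
        ((x * B₂.inc (B₁.inc (gM (α q₂))) * x⁻¹ * B₂.inc (B₁.inc (δ (sK y x3)))) *
        (x * B₂.inc (B₁.inc (gM (α q₃)⁻¹)) * x⁻¹ * B₂.inc (B₁.inc (δ (sK y x1))))) =
        τ * ((x * B₂.inc (B₁.inc (gM (α q₁))) * x⁻¹ * B₂.inc (B₁.inc (δ (sK y x2)))) *
        (x * B₂.inc (B₁.inc (gM (α q₁)⁻¹)) * x⁻¹ * B₂.inc (B₁.inc (δ (sK y x1))))) * τ⁻¹ := by
      intro q₁ q₂ q₃ hq
      obtain ⟨τ, hτ⟩ := hrel y q₁ q₂ q₃ hq
      rw [hbδ, hbδ, hbδ, map_inv, map_inv] at hτ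
      have hFq : ∀ g, B₂.inc (B₁.inc (gM (α g))) = F g := fun g => rfl
      have hFq' : ∀ g, B₂.inc (B₁.inc (gM (α g)⁻¹)) = (F g)⁻¹ := by
        intro g
        rw [map_inv, map_inv, map_inv]
        rfl
      rw [hFq, hFq, hFq', hFq', hx, inv_inv]
      rw [hx] at hτ
      set X1 := B₂.inc (B₁.inc (δ (sK y x1)))
      set X2 := B₂.inc (B₁.inc (δ (sK y x2)))
      set X3 := B₂.inc (B₁.inc (δ (sK y x3)))
      refine ⟨(h * X1)⁻¹ * τ * (h * X1), ?_⟩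
      have e1 : h⁻¹ * F q₁ * h * X2 * (h⁻¹ * F q₂ * h * X3 * (h⁻¹ * (F q₃)⁻¹ * h * X1)) =
        (h * X1)⁻¹ * (h * X1 * h⁻¹ * F q₁ * (h * X2 * h⁻¹ * F q₂) *
          (h * X3 * h⁻¹ * (F q₃)⁻¹)) * (h * X1) := by group
      rw [e1, hτ]
      group
    have Ane : ∀ {g}, g ≠ 1 → gM (α g) ≠ 1 := fun hg => gM_ne_one (fun h => hg (αinj _ h))
    have Ane' : ∀ {g}, g ≠ 1 → gM (α g)⁻¹ ≠ 1 :=
      fun hg => gM_ne_one (inv_ne_one.2 (fun h => hg (αinj _ h)))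
    have NE2 : ∀ {m : MG G}, m ≠ 1 → B₂.NE (B₁.inc m) := by
      intro m hm
      have := NE₂ B₁ hA₁ B₂ hA₂ hA₂' hQ hm 1
      simpa using this
    -- `x` lies in `L`
    obtain ⟨ℓ, hℓ⟩ : ∃ ℓ, x = B₂.inc ℓ := by
      obtain ⟨τ, hτ⟩ := key g₀ g₀ g₀ (hdiag g₀ hg₀)
      exact B₂.unbalanced x (NE2 (Ane hg₀)) (NE2 (Ane hg₀)) (NE2 (Ane' hg₀)) (NE2 (Ane' hg₀))
        (NE2 (Rne x1_ne)) (NE2 (Rne x2_ne)) (NE2 (Rne x3_ne)) τ hτ
    -- the relation inside `L`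
    have key2 : ∀ q₁ q₂ q₃ : G, (q₁, q₂, q₃) ∈ Q → ∃ τ : H,
        B₂.inc ((ℓ * B₁.inc (gM (α q₁)) * ℓ⁻¹ * B₁.inc (δ (sK y x2))) *
        ((ℓ * B₁.inc (gM (α q₂)) * ℓ⁻¹ * B₁.inc (δ (sK y x3))) *
        (ℓ * B₁.inc (gM (α q₃)⁻¹) * ℓ⁻¹ * B₁.inc (δ (sK y x1))))) =
        τ * B₂.inc ((ℓ * B₁.inc (gM (α q₁)) * ℓ⁻¹ * B₁.inc (δ (sK y x2))) *
        (ℓ * B₁.inc (gM (α q₁)⁻¹) * ℓ⁻¹ * B₁.inc (δ (sK y x1)))) * τ⁻¹ := by
      intro q₁ q₂ q₃ hq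
      obtain ⟨τ, hτ⟩ := key q₁ q₂ q₃ hq
      refine ⟨τ, ?_⟩
      rw [hℓ] at hτ
      simp only [map_mul, map_inv] at hτ ⊢
      exact hτ
    -- `ℓ` does not lie in the base
    have hℓ' : ¬ ∃ m, ℓ = B₁.inc m := by
      rintro ⟨m, rfl⟩
      obtain ⟨τ, hτ⟩ := key2 g₀ g₀ g₀ (hdiag g₀ hg₀)
      have e1 : (B₁.inc m * B₁.inc (gM (α g₀)) * (B₁.inc m)⁻¹ * B₁.inc (δ (sK y x2))) *
        (B₁.inc m * B₁.inc (gM (α g₀)⁻¹) * (B₁.inc m)⁻¹ * B₁.inc (δ (sK y x1))) =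
        B₁.inc (δ (sK y (x2 * x1))) := by
        simp only [← map_mul, ← map_inv]
        congr 1
        apply Prod.ext
        · simp only [map_mul, Prod.fst_mul, hy, gM_fst, Prod.fst_inv, map_inv]
          group
        · simp only [map_mul, Prod.snd_mul, gM_snd, Prod.snd_inv]
          group
      rw [e1] at hτ
      have e2 : B₂.inc ((B₁.inc m * B₁.inc (gM (α g₀)) * (B₁.inc m)⁻¹ *
        B₁.inc (δ (sK y x2))) *
        ((B₁.inc m * B₁.inc (gM (α g₀)) * (B₁.inc m)⁻¹ * B₁.inc (δ (sK y x3))) *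
        (B₁.inc m * B₁.inc (gM (α g₀)⁻¹) * (B₁.inc m)⁻¹ * B₁.inc (δ (sK y x1))))) ^ 2 = 1 := by
        rw [hτ, conj_pow, ← map_pow, ← map_pow, ← map_pow, ← map_pow, x21_pow2]
        simp
      rw [← map_pow] at e2
      have e3 := B₂.inj (e2.trans (map_one B₂.inc).symm)
      simp only [← map_mul, ← map_inv, ← map_pow] at e3
      have e4 := B₁.inj (e3.trans (map_one B₁.inc).symm)
      have e5 := congrArg Prod.snd e4
      apply x231_pow2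
      apply δinj y
      apply Prod.ext
      · rw [hy]; rfl
      · rw [Prod.snd_one] at e5 ⊢
        rw [← e5]
        simp only [map_mul, map_pow, Prod.snd_mul, Prod.pow_snd, gM_snd, Prod.snd_inv]
        congr 1
        group
    obtain ⟨m₀, l₀, hl₀, hℓ₀, -⟩ := B₁.exists_red ℓ
    cases l₀ with
    | nil => exact absurd ⟨m₀, by simpa using hℓ₀⟩ hℓ'
    | cons z l =>
      obtain ⟨e, m⟩ := z
      -- the conclusion for each triple of `Q`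
      have concl : ∀ q₁ q₂ q₃ : G, (q₁, q₂, q₃) ∈ Q →
          (m.1 * α q₁ * m.1⁻¹, m.1 * α q₂ * m.1⁻¹, m.1 * α q₃ * m.1⁻¹) ∈ Q := by
        intro q₁ q₂ q₃ hq
        obtain ⟨n1, n2, n3⟩ := hQ _ hq
        simp only at n1 n2 n3
        obtain ⟨τ, hτ⟩ := key2 q₁ q₂ q₃ hq
        have N1 := B₁.NE_of_ne_one hA₁ (Ane n1)
        have N2 := B₁.NE_of_ne_one hA₁ (Ane n2)
        have N3 := B₁.NE_of_ne_one hA₁ (Ane' n3)
        have N4 := B₁.NE_of_ne_one hA₁ (Ane' n1)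
        have Y1 := B₁.NE_of_ne_one hA₁ (Rne x1_ne)
        have Y2 := B₁.NE_of_ne_one hA₁ (Rne x2_ne)
        have Y3 := B₁.NE_of_ne_one hA₁ (Rne x3_ne)
        rcases B₂.conj_inc hτ with ⟨c, hc⟩ | ⟨c, e', hc⟩
        · exact absurd (B₁.unbalanced ℓ N1 N2 N3 N4 Y1 Y2 Y3 c hc) hℓ'
        · set D := B₁.blk m₀ e m l (gM (α q₁)) (δ (sK y x2)) ++
            (B₁.blk m₀ e m l (gM (α q₂)) (δ (sK y x3)) ++
            B₁.blk m₀ e m l (gM (α q₃)⁻¹) (δ (sK y x1))) with hD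
          have hDC : B₁.C D := ((B₁.blk_blk m₀ e m l N1 Y2 hl₀).append
            ((B₁.blk_blk m₀ e m l N2 Y3 hl₀).append (B₁.blk_blk m₀ e m l N3 Y1 hl₀))).c
          have hPD : B₁.inc m₀ * B₁.P D * (B₁.inc m₀)⁻¹ =
              (ℓ * B₁.inc (gM (α q₁)) * ℓ⁻¹ * B₁.inc (δ (sK y x2))) *
              ((ℓ * B₁.inc (gM (α q₂)) * ℓ⁻¹ * B₁.inc (δ (sK y x3))) *
              (ℓ * B₁.inc (gM (α q₃)⁻¹) * ℓ⁻¹ * B₁.inc (δ (sK y x1)))) := by
            rw [hD, B₁.P_three, ← hℓ₀]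
          have hc' : ((B₁.inc m₀)⁻¹ * c)⁻¹ * B₁.P D * ((B₁.inc m₀)⁻¹ * c) ∈ B₂.A e' := by
            have : ((B₁.inc m₀)⁻¹ * c)⁻¹ * B₁.P D * ((B₁.inc m₀)⁻¹ * c) =
              c⁻¹ * (B₁.inc m₀ * B₁.P D * (B₁.inc m₀)⁻¹) * c := by group
            rw [this, hPD]
            exact hc
          obtain ⟨y', p₁, p₂, p₃, N, hp, hrot⟩ :=
            rot_of_edge B₁ hA₁ hinv₁ B₂ hA₂ hA₂' hQ hDC hc'
          have hfin := level_one B₁ hinv₁ (k := (α q₁, α q₂, α q₃)) m₀ e m l (δ (sK y x1))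
            (δ (sK y x2)) (δ (sK y x3)) (fun h => n1 (αinj _ h))
            (by rw [← map_pow, ← map_pow, x2_pow3, map_one, map_one])
            (by rw [← map_pow, ← map_pow, x3_pow5, map_one, map_one]) hD hrot
          simp only at hfin
          rw [hfin.1, hfin.2.1, hfin.2.2]
          exact hp
      -- rigidity
      have hσ := hrigid ((MulAut.conj m.1).toMonoidHom.comp α) (by
        rw [injective_iff_map_eq_one]
        intro g hg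
        apply αinj
        have : m.1 * α g * m.1⁻¹ = 1 := hg
        rwa [conj_eq_one_iff] at this) (by
        rintro ⟨q₁, q₂, q₃⟩ hq
        exact concl q₁ q₂ q₃ hq)
      refine ⟨(m.1)⁻¹, fun g => ?_⟩
      have h1 : m.1 * α g * m.1⁻¹ = g := hσ g
      calc α g = m.1⁻¹ * (m.1 * α g * m.1⁻¹) * m.1⁻¹⁻¹ := by group
        _ = m.1⁻¹ * g * m.1⁻¹⁻¹ := by rw [h1]

end Final

end Pool.Agent.R708
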