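import Pool.Agent.R708.ExtendWords

/-!
# Extendable endomorphisms are inner or trivial: the main argument
-/

namespace Pool.Agent.R708

universe u v w

section Main

variable {G : Type u} [Group G] (Q : Set (G × G × G))

/-- The index type of the stable letters. -/
abbrev Idx : Type u := Set G × {q : G × G × G // q ∈ Q}

variable {Q}

/-- The long word of an index. -/
noncomputable def wd (i : Idx Q) : List (ℤˣ × MG G) :=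
  Z6 i.1 x1 x2 x3 i.2.1.1 i.2.1.2.1 (i.2.1.2.2)⁻¹

/-- The short word of an index. -/
noncomputable def wd' (i : Idx Q) : List (ℤˣ × MG G) :=
  Z4 i.1 x1 x2 i.2.1.1 (i.2.1.1)⁻¹

open Classical in
/-- The copies of `A₅` in `K`. -/
noncomputable def sK (y : Set G) : S5 →* KG G := MonoidHom.mulSingle (fun _ : Set G => S5) y

theorem kM_eq (y : Set G) (a : S5) : kM y a = ((1, sK y a) : MG G) := rfl

theorem sK_comm {y y' : Set G} (h : y ≠ y') (a b : S5) : sK y a * sK y' b = sK y' b * sK y a := by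
  classical
  exact Pi.mulSingle_commute (f := fun _ : Set G => S5) h a b

theorem KG_pow (k : KG G) : k ^ 60 = 1 := by
  funext y
  exact S5_pow (k y)

variable {L H : Type u} [Group L] [Group H] (B₁ : Brit (MG G) L ℤˣ) (hA₁ : ∀ e, B₁.A e = ⊥)
  (hinv₁ : ∀ e, B₁.inv e = -e) (B₂ : Brit L H (Idx Q × ℤˣ))
  (hA₂ : ∀ i, ∀ z ∈ B₂.A (i, 1), ∃ j : ℤ, z = B₁.P (wd i) ^ j)
  (hA₂' : ∀ i, ∀ z ∈ B₂.A (i, -1), ∃ j : ℤ, z = B₁.P (wd' i) ^ j)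
  (rel : ∀ i, B₂.t (i, 1) * B₂.inc (B₁.P (wd i)) * (B₂.t (i, 1))⁻¹ = B₂.inc (B₁.P (wd' i)))
  (hQ : ∀ q ∈ Q, q.1 ≠ 1 ∧ q.2.1 ≠ 1 ∧ q.2.2 ≠ 1)

include hA₁ hQ in
theorem wd_C (i : Idx Q) : B₁.C (wd i) := by
  obtain ⟨h1, h2, h3⟩ := hQ _ i.2.2
  exact Z6_C B₁ hA₁ _ x1_ne x2_ne x3_ne h1 h2 (inv_ne_one.2 h3)

include hA₁ hQ in
theorem wd'_C (i : Idx Q) : B₁.C (wd' i) := by
  obtain ⟨h1, h2, h3⟩ := hQ _ i.2.2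
  exact Z4_C B₁ hA₁ _ x1_ne x2_ne h1 (inv_ne_one.2 h1)

include hA₁ hA₂ hA₂' hQ in
theorem NE₂ {m₀ : MG G} (hm₀ : m₀ ≠ 1) (ℓ : L) : B₂.NE (ℓ * B₁.inc m₀ * ℓ⁻¹) := by
  intro c e he
  have key : ∀ (Z : List (ℤˣ × MG G)), B₁.C Z → ∀ j : ℤ,
      c * (ℓ * B₁.inc m₀ * ℓ⁻¹) * c⁻¹ ≠ B₁.P Z ^ j := by
    intro Z hZ j hj
    by_cases h0 : j = 0
    · subst h0
      rw [zpow_zero, conj_eq_one_iff, conj_eq_one_iff] at hj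
      apply hm₀
      apply B₁.inj
      rw [hj, map_one]
    · apply hZ.zpow_not_conj h0 (c * ℓ) m₀
      rw [← hj]
      group
  obtain ⟨i, u⟩ := e
  rcases Int.units_eq_one_or u with rfl | rfl
  · obtain ⟨j, hj⟩ := hA₂ i _ he
    exact key _ (wd_C B₁ hA₁ hQ i) j hj
  · obtain ⟨j, hj⟩ := hA₂' i _ he
    exact key _ (wd'_C B₁ hA₁ hQ i) j hj

include hA₁ hA₂ hA₂' hQ in
theorem NE₂_torsion {m : L} (hm : m ≠ 1) (hm' : m ^ 60 = 1) : B₂.NE m := by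
  obtain ⟨g, m₀, hg⟩ := B₁.torsion_conj (by norm_num) hm'
  rw [hg]
  apply NE₂ B₁ hA₁ B₂ hA₂ hA₂' hQ
  rintro rfl
  apply hm
  rw [hg]
  simp

include hA₁ hinv₁ hA₂ hA₂' hQ in
/-- Elements of edge groups. -/
theorem rot_of_edge {D : List (ℤˣ × MG G)} (hD : B₁.C D) {g : L} {e : Idx Q × ℤˣ}
    (h : g⁻¹ * B₁.P D * g ∈ B₂.A e) :
    ∃ (y' : Set G) (q₁ q₂ q₃ : G) (N : ℕ), (q₁, q₂, q₃) ∈ Q ∧
      ((List.replicate N (Z6 y' x1 x2 x3 q₁ q₂ q₃⁻¹)).flatten.IsRotated D ∨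
      (List.replicate N (Z6 y' x3⁻¹ x2⁻¹ x1⁻¹ q₂⁻¹ q₁⁻¹ q₃)).flatten.IsRotated D ∨
      (List.replicate N (Z4 y' x1 x2 q₁ q₁⁻¹)).flatten.IsRotated D ∨
      (List.replicate N (Z4 y' x2⁻¹ x1⁻¹ q₁⁻¹ q₁)).flatten.IsRotated D) := by
  obtain ⟨⟨y', ⟨⟨q₁, q₂, q₃⟩, hq⟩⟩, u⟩ := e
  obtain ⟨n1, n2, n3⟩ := hQ _ hq
  simp only at n1 n2 n3
  have c1 := wd_C B₁ hA₁ hQ (y', ⟨(q₁, q₂, q₃), hq⟩)
  have c2 := wd'_C B₁ hA₁ hQ (y', ⟨(q₁, q₂, q₃), hq⟩)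
  rcases Int.units_eq_one_or u with rfl | rfl
  · obtain ⟨j, hj⟩ := hA₂ _ _ h
    have hi := P_Z6_inv B₁ hinv₁ y' x1 x2 x3 q₁ q₂ q₃⁻¹
    have c3 : B₁.C (Z6 y' x3⁻¹ x2⁻¹ x1⁻¹ q₂⁻¹ q₁⁻¹ q₃⁻¹⁻¹) :=
      Z6_C B₁ hA₁ _ x3i_ne x2i_ne x1i_ne (inv_ne_one.2 n2) (inv_ne_one.2 n1) (by simpa using n3)
    obtain ⟨N, hN | hN⟩ := rot_of_zpow B₁ hA₁ hD c1 c3 hi hj
    · exact ⟨y', q₁, q₂, q₃, N, hq, Or.inl hN⟩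
    · rw [inv_inv] at hN
      exact ⟨y', q₁, q₂, q₃, N, hq, Or.inr (Or.inl hN)⟩
  · obtain ⟨j, hj⟩ := hA₂' _ _ h
    have hi := P_Z4_inv B₁ hinv₁ y' x1 x2 q₁ q₁⁻¹
    have c3 : B₁.C (Z4 y' x2⁻¹ x1⁻¹ q₁⁻¹ q₁⁻¹⁻¹) :=
      Z4_C B₁ hA₁ _ x2i_ne x1i_ne (inv_ne_one.2 n1) (by simpa using n1)
    obtain ⟨N, hN | hN⟩ := rot_of_zpow B₁ hA₁ hD c2 c3 hi hj
    · exact ⟨y', q₁, q₂, q₃, N, hq, Or.inr (Or.inr (Or.inl hN))⟩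
    · rw [inv_inv] at hN
      exact ⟨y', q₁, q₂, q₃, N, hq, Or.inr (Or.inr (Or.inr hN))⟩

/-! ### The level-one analysis -/

/-- Conclusion of the level-one analysis for a single triple. -/
theorem level_one_single {k : G × G × G} (m₀ m : MG G) (e e' : ℤˣ) (R₁ R₂ R₃ : MG G)
    (hk : k.1 ≠ 1) (h2 : R₂ ^ 3 = 1) (h3 : R₃ ^ 5 = 1)
    {y' : Set G} {q₁ q₂ q₃ : G} {N : ℕ}
    (h : (List.replicate N (Z6 y' x1 x2 x3 q₁ q₂ q₃⁻¹)).flatten.IsRotated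
        [(e, m * gM k.1 * m⁻¹), (e', m₀⁻¹ * R₂ * m₀), (e, m * gM k.2.1 * m⁻¹),
          (e', m₀⁻¹ * R₃ * m₀), (e, m * gM k.2.2⁻¹ * m⁻¹), (e', m₀⁻¹ * R₁ * m₀)] ∨
      (List.replicate N (Z6 y' x3⁻¹ x2⁻¹ x1⁻¹ q₂⁻¹ q₁⁻¹ q₃)).flatten.IsRotated
        [(e, m * gM k.1 * m⁻¹), (e', m₀⁻¹ * R₂ * m₀), (e, m * gM k.2.1 * m⁻¹),
          (e', m₀⁻¹ * R₃ * m₀), (e, m * gM k.2.2⁻¹ * m⁻¹), (e', m₀⁻¹ * R₁ * m₀)] ∨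
      (List.replicate N (Z4 y' x1 x2 q₁ q₁⁻¹)).flatten.IsRotated
        [(e, m * gM k.1 * m⁻¹), (e', m₀⁻¹ * R₂ * m₀), (e, m * gM k.2.1 * m⁻¹),
          (e', m₀⁻¹ * R₃ * m₀), (e, m * gM k.2.2⁻¹ * m⁻¹), (e', m₀⁻¹ * R₁ * m₀)] ∨
      (List.replicate N (Z4 y' x2⁻¹ x1⁻¹ q₁⁻¹ q₁)).flatten.IsRotated
        [(e, m * gM k.1 * m⁻¹), (e', m₀⁻¹ * R₂ * m₀), (e, m * gM k.2.1 * m⁻¹),
          (e', m₀⁻¹ * R₃ * m₀), (e, m * gM k.2.2⁻¹ * m⁻¹), (e', m₀⁻¹ * R₁ * m₀)]) :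
    m.1 * k.1 * m.1⁻¹ = q₁ ∧ m.1 * k.2.1 * m.1⁻¹ = q₂ ∧ m.1 * k.2.2 * m.1⁻¹ = q₃ := by
  have hP : (m * gM k.1 * m⁻¹).1 ≠ 1 := by
    change m.1 * k.1 * m.1⁻¹ ≠ 1
    rwa [Ne, conj_eq_one_iff]
  have h2' : (m₀⁻¹ * R₂ * m₀) ^ 3 = 1 := by
    have : m₀⁻¹ * R₂ * m₀ = m₀⁻¹ * R₂ * m₀⁻¹⁻¹ := by simp
    rw [this, conj_pow, h2]
    simp
  have h3' : (m₀⁻¹ * R₃ * m₀) ^ 5 = 1 := by
    have : m₀⁻¹ * R₃ * m₀ = m₀⁻¹ * R₃ * m₀⁻¹⁻¹ := by simp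
    rw [this, conj_pow, h3]
    simp
  have c : ∀ {R : MG G} {n : ℕ} {a : S5}, R ^ n = 1 → R = kM y' a → a ^ n = 1 := by
    intro R n a hR hRa
    apply kM_injective y'
    rw [map_pow, ← hRa, hR, map_one]
  rcases h with h | h | h | h
  · rcases match_Z6 h hP with ⟨e1, e2, e3, -, -⟩ | ⟨e1, -⟩ | ⟨e1, -⟩
    · refine ⟨congrArg Prod.fst e1, congrArg Prod.fst e2, ?_⟩
      have e4 : m.1 * k.2.2⁻¹ * m.1⁻¹ = q₃⁻¹ := congrArg Prod.fst e3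
      rw [← inv_inj, ← e4]
      group
    · exact absurd (c h2' e1) x3_pow3
    · exact absurd (c h2' e1) x1_pow3
  · rcases match_Z6 h hP with ⟨-, -, -, -, e1⟩ | ⟨e1, -⟩ | ⟨e1, -⟩
    · exact absurd (c h3' e1) x1i_pow5
    · exact absurd (c h2' e1) x1i_pow3
    · exact absurd (c h2' e1) x3i_pow3
  · rcases match_Z4 h hP with e1 | e1
    · exact absurd (c h3' e1) x1_pow5
    · exact absurd (c h3' e1) x2_pow5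
  · rcases match_Z4 h hP with e1 | e1
    · exact absurd (c h3' e1) x2i_pow5
    · exact absurd (c h3' e1) x1i_pow5

include hinv₁ in
/-- Conclusion of the level-one analysis. -/
theorem level_one {k : G × G × G} (m₀ : MG G) (e : ℤˣ) (m : MG G) (l : List (ℤˣ × MG G))
    (R₁ R₂ R₃ : MG G) (hk : k.1 ≠ 1) (h2 : R₂ ^ 3 = 1) (h3 : R₃ ^ 5 = 1)
    {y' : Set G} {q₁ q₂ q₃ : G} {N : ℕ} {D : List (ℤˣ × MG G)}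
    (hD : D = B₁.blk m₀ e m l (gM k.1) R₂ ++ (B₁.blk m₀ e m l (gM k.2.1) R₃ ++
      B₁.blk m₀ e m l (gM k.2.2⁻¹) R₁))
    (h : (List.replicate N (Z6 y' x1 x2 x3 q₁ q₂ q₃⁻¹)).flatten.IsRotated D ∨
      (List.replicate N (Z6 y' x3⁻¹ x2⁻¹ x1⁻¹ q₂⁻¹ q₁⁻¹ q₃)).flatten.IsRotated D ∨
      (List.replicate N (Z4 y' x1 x2 q₁ q₁⁻¹)).flatten.IsRotated D ∨
      (List.replicate N (Z4 y' x2⁻¹ x1⁻¹ q₁⁻¹ q₁)).flatten.IsRotated D) :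
    m.1 * k.1 * m.1⁻¹ = q₁ ∧ m.1 * k.2.1 * m.1⁻¹ = q₂ ∧ m.1 * k.2.2 * m.1⁻¹ = q₃ := by
  by_cases hl : l = []
  · subst hl
    have hD' : D = [(e, m * gM k.1 * m⁻¹), (-e, m₀⁻¹ * R₂ * m₀), (e, m * gM k.2.1 * m⁻¹),
          (-e, m₀⁻¹ * R₃ * m₀), (e, m * gM k.2.2⁻¹ * m⁻¹), (-e, m₀⁻¹ * R₁ * m₀)] := by
      rw [hD]
      simp [Brit.blk, Brit.core, hinv₁]
    rw [hD'] at h
    exact level_one_single m₀ m e (-e) R₁ R₂ R₃ hk h2 h3 h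
  · exfalso
    obtain ⟨pre, post, e₁, m₁, e₂, m₂, e₃, hp⟩ := exists_peak B₁ e m l hl (gM k.1)
    have hD' : ∃ post', D = pre ++ (e₁, m₁) :: (e₂, m₂ * gM k.1 * m₂⁻¹) :: (e₃, m₁⁻¹) :: post' := by
      refine ⟨post ++ ([(B₁.inv e, m₀⁻¹ * R₂ * m₀)] ++ (B₁.blk m₀ e m l (gM k.2.1) R₃ ++
      B₁.blk m₀ e m l (gM k.2.2⁻¹) R₁)), ?_⟩
      rw [hD, Brit.blk, hp]
      simp
    obtain ⟨post', hD'⟩ := hD'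
    have hq : (m₂ * gM k.1 * m₂⁻¹).1 ≠ 1 := by
      change m₂.1 * k.1 * m₂.1⁻¹ ≠ 1
      rwa [Ne, conj_eq_one_iff]
    rw [hD'] at h
    rcases h with h | h | h | h
    · exact triple_Z6 x12_ne x23_ne x31_ne h hq (mul_inv_cancel m₁)
    · exact triple_Z6 x32i_ne x21i_ne x13i_ne h hq (mul_inv_cancel m₁)
    · exact triple_Z4 x12_ne x21_ne h hq (mul_inv_cancel m₁)
    · exact triple_Z4 x21i_ne x12i_ne h hq (mul_inv_cancel m₁)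

end Main

end Pool.Agent.R708
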