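import Pool.Agent.R708.Extend

/-!
# The words used in the proof that extendable endomorphisms are inner or trivial
-/

namespace Pool.Agent.R708

universe u v w

/-- The big torsion group. -/
abbrev KG (G : Type u) : Type u := Set G → S5

/-- The base group. -/
abbrev MG (G : Type u) : Type u := G × KG G

section Words

variable {G : Type u} [Group G]

open Classical in
/-- The copies of `A₅` in the base group. -/
noncomputable def kM (y : Set G) : S5 →* MG G :=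
  (MonoidHom.inr G (KG G)).comp (MonoidHom.mulSingle (fun _ : Set G => S5) y)

/-- The copy of `G` in the base group. -/
def gM : G →* MG G := MonoidHom.inl G (KG G)

theorem kM_fst (y : Set G) (s : S5) : (kM y s).1 = 1 := rfl

theorem gM_fst (g : G) : (gM g).1 = g := rfl

theorem gM_snd (g : G) : (gM g).2 = 1 := rfl

theorem kM_injective (y : Set G) : Function.Injective (kM y) := by
  classical
  intro s s' h
  have h2 : Pi.mulSingle (M := fun _ : Set G => S5) y s = Pi.mulSingle y s' :=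
    congrArg Prod.snd h
  exact Pi.mulSingle_injective (M := fun _ : Set G => S5) y h2

theorem kM_ne_one (y : Set G) {s : S5} (hs : s ≠ 1) : kM y s ≠ 1 := by
  intro h
  apply hs
  apply kM_injective y
  rw [h, map_one]

theorem gM_ne_one {g : G} (hg : g ≠ 1) : gM g ≠ 1 := by
  intro h
  apply hg
  rw [← gM_fst g, h]
  rfl

/-- The long cyclic words. -/
noncomputable def Z6 (y : Set G) (a₁ a₂ a₃ : S5) (g₁ g₂ g₃ : G) : List (ℤˣ × MG G) :=
  [(1, kM y a₁), (-1, gM g₁), (1, kM y a₂), (-1, gM g₂), (1, kM y a₃), (-1, gM g₃)]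

/-- The short cyclic words. -/
noncomputable def Z4 (y : Set G) (a₁ a₂ : S5) (g₁ g₂ : G) : List (ℤˣ × MG G) :=
  [(1, kM y a₁), (-1, gM g₁), (1, kM y a₂), (-1, gM g₂)]

theorem Z6_length (y : Set G) (a₁ a₂ a₃ : S5) (g₁ g₂ g₃ : G) :
    (Z6 y a₁ a₂ a₃ g₁ g₂ g₃).length = 6 := rfl

theorem Z4_length (y : Set G) (a₁ a₂ : S5) (g₁ g₂ : G) : (Z4 y a₁ a₂ g₁ g₂).length = 4 := rfl

variable {L : Type u} [Group L] (B : Brit (MG G) L ℤˣ) (hA : ∀ e, B.A e = ⊥)
  (hinv : ∀ e, B.inv e = -e)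

include hA in
theorem Z6_C (y : Set G) {a₁ a₂ a₃ : S5} {g₁ g₂ g₃ : G} (h1 : a₁ ≠ 1) (h2 : a₂ ≠ 1) (h3 : a₃ ≠ 1)
    (h4 : g₁ ≠ 1) (h5 : g₂ ≠ 1) (h6 : g₃ ≠ 1) : B.C (Z6 y a₁ a₂ a₃ g₁ g₂ g₃) := by
  apply B.C_of_ne_one hA _ (by simp [Z6])
  intro x hx
  simp only [Z6, List.mem_cons, List.not_mem_nil, or_false] at hx
  rcases hx with rfl | rfl | rfl | rfl | rfl | rfl
  · exact kM_ne_one y h1
  · exact gM_ne_one h4
  · exact kM_ne_one y h2
  · exact gM_ne_one h5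
  · exact kM_ne_one y h3
  · exact gM_ne_one h6

include hA in
theorem Z4_C (y : Set G) {a₁ a₂ : S5} {g₁ g₂ : G} (h1 : a₁ ≠ 1) (h2 : a₂ ≠ 1)
    (h4 : g₁ ≠ 1) (h5 : g₂ ≠ 1) : B.C (Z4 y a₁ a₂ g₁ g₂) := by
  apply B.C_of_ne_one hA _ (by simp [Z4])
  intro x hx
  simp only [Z4, List.mem_cons, List.not_mem_nil, or_false] at hx
  rcases hx with rfl | rfl | rfl | rfl
  · exact kM_ne_one y h1
  · exact gM_ne_one h4
  · exact kM_ne_one y h2
  · exact gM_ne_one h5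

include hinv in
theorem t_neg_one : B.t (-1) = (B.t 1)⁻¹ := by
  rw [← B.t_inv, hinv]

include hinv in
theorem P_Z6 (y : Set G) (a₁ a₂ a₃ : S5) (g₁ g₂ g₃ : G) :
    B.P (Z6 y a₁ a₂ a₃ g₁ g₂ g₃) =
      (B.t 1 * B.inc (kM y a₁) * (B.t 1)⁻¹) * B.inc (gM g₁) *
      ((B.t 1 * B.inc (kM y a₂) * (B.t 1)⁻¹) * B.inc (gM g₂)) *
      ((B.t 1 * B.inc (kM y a₃) * (B.t 1)⁻¹) * B.inc (gM g₃)) := by
  simp only [Z6, Brit.P_cons, Brit.P_nil, t_neg_one B hinv, mul_one, mul_assoc]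

include hinv in
theorem P_Z4 (y : Set G) (a₁ a₂ : S5) (g₁ g₂ : G) :
    B.P (Z4 y a₁ a₂ g₁ g₂) =
      (B.t 1 * B.inc (kM y a₁) * (B.t 1)⁻¹) * B.inc (gM g₁) *
      ((B.t 1 * B.inc (kM y a₂) * (B.t 1)⁻¹) * B.inc (gM g₂)) := by
  simp only [Z4, Brit.P_cons, Brit.P_nil, t_neg_one B hinv, mul_one, mul_assoc]

include hinv in
theorem P_Z6_inv (y : Set G) (a₁ a₂ a₃ : S5) (g₁ g₂ g₃ : G) :
    (B.P (Z6 y a₁ a₂ a₃ g₁ g₂ g₃))⁻¹ =
      B.inc (gM g₃⁻¹) * B.P (Z6 y a₃⁻¹ a₂⁻¹ a₁⁻¹ g₂⁻¹ g₁⁻¹ g₃⁻¹) * (B.inc (gM g₃⁻¹))⁻¹ := by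
  rw [P_Z6 B hinv, P_Z6 B hinv]
  simp only [map_inv]
  group

include hinv in
theorem P_Z4_inv (y : Set G) (a₁ a₂ : S5) (g₁ g₂ : G) :
    (B.P (Z4 y a₁ a₂ g₁ g₂))⁻¹ =
      B.inc (gM g₂⁻¹) * B.P (Z4 y a₂⁻¹ a₁⁻¹ g₁⁻¹ g₂⁻¹) * (B.inc (gM g₂⁻¹))⁻¹ := by
  rw [P_Z4 B hinv, P_Z4 B hinv]
  simp only [map_inv]
  group

include hA in
/-- Cyclically reduced elements conjugate to powers of `P Z`. -/
theorem rot_of_zpow {D Z Z' : List (ℤˣ × MG G)} (hD : B.C D) (hZ : B.C Z) (hZ' : B.C Z')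
    {c : L} (hc : (B.P Z)⁻¹ = c * B.P Z' * c⁻¹) {g : L} {j : ℤ}
    (h : g⁻¹ * B.P D * g = B.P Z ^ j) :
    ∃ N, (List.replicate N Z).flatten.IsRotated D ∨ (List.replicate N Z').flatten.IsRotated D := by
  have hj : j ≠ 0 := by
    rintro rfl
    rw [zpow_zero] at h
    apply hD.pow_ne_one (N := 1) one_pos
    rw [pow_one]
    have : B.P D = g * (g⁻¹ * B.P D * g) * g⁻¹ := by group
    rw [this, h]
    group
  have hD' : B.P D = g * B.P Z ^ j * g⁻¹ := by rw [← h]; group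
  refine ⟨j.natAbs, ?_⟩
  rcases Int.natAbs_eq j with h1 | h1
  · left
    apply List.IsRotated.symm
    apply B.isRotated_of_conj hA _ g rfl _ _ (hZ.cpow (N := j.natAbs) (by omega)) hD
    have h2 : B.P Z ^ j = B.P Z ^ j.natAbs := by
      conv_lhs => rw [h1]
      rw [zpow_natCast]
    rw [B.P_pow, hD', h2]
    group
  · right
    apply List.IsRotated.symm
    apply B.isRotated_of_conj hA _ (g * c) rfl _ _ (hZ'.cpow (N := j.natAbs) (by omega)) hD
    have h2 : B.P Z ^ j = c * B.P Z' ^ j.natAbs * c⁻¹ := by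
      rw [← conj_pow, ← hc]
      conv_lhs => rw [h1]
      rw [zpow_neg, zpow_natCast, inv_pow]
    rw [B.P_pow, hD', h2]
    group

end Words

section Matching

variable {G : Type u} [Group G]

/-- There is no consecutive triple with the middle syllable outside of `K` and the outer syllables
inverse to each other in a rotation of a power of `Z6`. -/
theorem triple_Z6 {y : Set G} {a₁ a₂ a₃ : S5} {g₁ g₂ g₃ : G} (h12 : a₁ * a₂ ≠ 1)
    (h23 : a₂ * a₃ ≠ 1) (h31 : a₃ * a₁ ≠ 1) {N : ℕ} {pre post : List (ℤˣ × MG G)}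
    {p q r : ℤˣ × MG G}
    (h : (List.replicate N (Z6 y a₁ a₂ a₃ g₁ g₂ g₃)).flatten.IsRotated
      (pre ++ p :: q :: r :: post)) (hq : q.2.1 ≠ 1) (hpr : p.2 * r.2 = 1) : False := by
  obtain ⟨d, hd⟩ := getElem_of_isRotated _ (by simp [Z6]) N h
  have e0 := hd pre.length (by simp)
  have e1 := hd (pre.length + 1) (by simp)
  have e2 := hd (pre.length + 2) (by simp)
  simp only [Z6_length] at e0 e1 e2
  have f0 : (pre ++ p :: q :: r :: post)[pre.length]'(by simp) = p := by simp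
  have f1 : (pre ++ p :: q :: r :: post)[pre.length + 1]'(by simp) = q := by simp
  have f2 : (pre ++ p :: q :: r :: post)[pre.length + 2]'(by simp) = r := by simp
  rw [f0] at e0
  rw [f1] at e1
  rw [f2] at e2
  obtain ⟨s, hs⟩ : ∃ s, s = (pre.length + d) % 6 := ⟨_, rfl⟩
  have hs6 : s < 6 := by omega
  have g0 : (pre.length + d) % 6 = s := hs.symm
  have g1 : (pre.length + 1 + d) % 6 = (s + 1) % 6 := by omega
  have g2 : (pre.length + 2 + d) % 6 = (s + 2) % 6 := by omega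
  simp only [g0, g1, g2] at e0 e1 e2
  have key : ∀ {a b : S5}, a * b ≠ 1 → kM y a * kM y b ≠ 1 := by
    intro a b hab
    rw [← map_mul]
    exact kM_ne_one y hab
  interval_cases s
  · exact hq (by rw [e0] at hpr; rw [e1] at hq; exact absurd hpr (by
      rw [e2]; exact key h12))
  · exact hq (by rw [e1]; rfl)
  · exact hq (by rw [e0] at hpr; rw [e1] at hq; exact absurd hpr (by
      rw [e2]; exact key h23))
  · exact hq (by rw [e1]; rfl)
  · exact hq (by rw [e0] at hpr; rw [e1] at hq; exact absurd hpr (by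
      rw [e2]; exact key h31))
  · exact hq (by rw [e1]; rfl)

theorem triple_Z4 {y : Set G} {a₁ a₂ : S5} {g₁ g₂ : G} (h12 : a₁ * a₂ ≠ 1)
    (h21 : a₂ * a₁ ≠ 1) {N : ℕ} {pre post : List (ℤˣ × MG G)}
    {p q r : ℤˣ × MG G}
    (h : (List.replicate N (Z4 y a₁ a₂ g₁ g₂)).flatten.IsRotated
      (pre ++ p :: q :: r :: post)) (hq : q.2.1 ≠ 1) (hpr : p.2 * r.2 = 1) : False := by
  obtain ⟨d, hd⟩ := getElem_of_isRotated _ (by simp [Z4]) N h
  have e0 := hd pre.length (by simp)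
  have e1 := hd (pre.length + 1) (by simp)
  have e2 := hd (pre.length + 2) (by simp)
  simp only [Z4_length] at e0 e1 e2
  have f0 : (pre ++ p :: q :: r :: post)[pre.length]'(by simp) = p := by simp
  have f1 : (pre ++ p :: q :: r :: post)[pre.length + 1]'(by simp) = q := by simp
  have f2 : (pre ++ p :: q :: r :: post)[pre.length + 2]'(by simp) = r := by simp
  rw [f0] at e0
  rw [f1] at e1
  rw [f2] at e2
  obtain ⟨s, hs⟩ : ∃ s, s = (pre.length + d) % 4 := ⟨_, rfl⟩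
  have hs6 : s < 4 := by omega
  have g0 : (pre.length + d) % 4 = s := hs.symm
  have g1 : (pre.length + 1 + d) % 4 = (s + 1) % 4 := by omega
  have g2 : (pre.length + 2 + d) % 4 = (s + 2) % 4 := by omega
  simp only [g0, g1, g2] at e0 e1 e2
  have key : ∀ {a b : S5}, a * b ≠ 1 → kM y a * kM y b ≠ 1 := by
    intro a b hab
    rw [← map_mul]
    exact kM_ne_one y hab
  interval_cases s
  · exact hq (by rw [e0] at hpr; rw [e1] at hq; exact absurd hpr (by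
      rw [e2]; exact key h12))
  · exact hq (by rw [e1]; rfl)
  · exact hq (by rw [e0] at hpr; rw [e1] at hq; exact absurd hpr (by
      rw [e2]; exact key h21))
  · exact hq (by rw [e1]; rfl)

/-- Matching a list of six syllables with a rotation of a power of `Z6`. -/
theorem match_Z6 {y : Set G} {a₁ a₂ a₃ : S5} {g₁ g₂ g₃ : G} {N : ℕ} {e e' : ℤˣ}
    {P₁ P₂ P₃ R₁ R₂ R₃ : MG G}
    (h : (List.replicate N (Z6 y a₁ a₂ a₃ g₁ g₂ g₃)).flatten.IsRotated
      [(e, P₁), (e', R₂), (e, P₂), (e', R₃), (e, P₃), (e', R₁)]) (hP : P₁.1 ≠ 1) :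
    (P₁ = gM g₁ ∧ P₂ = gM g₂ ∧ P₃ = gM g₃ ∧ R₂ = kM y a₂ ∧ R₃ = kM y a₃) ∨
      (R₂ = kM y a₃ ∧ R₃ = kM y a₁) ∨ (R₂ = kM y a₁ ∧ R₃ = kM y a₂) := by
  obtain ⟨d, hd⟩ := getElem_of_isRotated _ (by simp [Z6]) N h
  have e0 := hd 0 (by simp)
  have e1 := hd 1 (by simp)
  have e2 := hd 2 (by simp)
  have e3 := hd 3 (by simp)
  have e4 := hd 4 (by simp)
  simp only [Z6_length] at e0 e1 e2 e3 e4
  obtain ⟨s, hs⟩ : ∃ s, s = d % 6 := ⟨_, rfl⟩
  have hs6 : s < 6 := by omega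
  have g0 : (0 + d) % 6 = s := by omega
  have g1 : (1 + d) % 6 = (s + 1) % 6 := by omega
  have g2 : (2 + d) % 6 = (s + 2) % 6 := by omega
  have g3 : (3 + d) % 6 = (s + 3) % 6 := by omega
  have g4 : (4 + d) % 6 = (s + 4) % 6 := by omega
  simp only [g0, g1, g2, g3, g4] at e0 e1 e2 e3 e4
  interval_cases s
  · exact absurd (by rw [show P₁ = kM y a₁ from congrArg Prod.snd e0]; rfl) hP
  · exact Or.inl ⟨congrArg Prod.snd e0, congrArg Prod.snd e2, congrArg Prod.snd e4,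
      congrArg Prod.snd e1, congrArg Prod.snd e3⟩
  · exact absurd (by rw [show P₁ = kM y a₂ from congrArg Prod.snd e0]; rfl) hP
  · exact Or.inr (Or.inl ⟨congrArg Prod.snd e1, congrArg Prod.snd e3⟩)
  · exact absurd (by rw [show P₁ = kM y a₃ from congrArg Prod.snd e0]; rfl) hP
  · exact Or.inr (Or.inr ⟨congrArg Prod.snd e1, congrArg Prod.snd e3⟩)

theorem match_Z4 {y : Set G} {a₁ a₂ : S5} {g₁ g₂ : G} {N : ℕ} {e e' : ℤˣ}
    {P₁ P₂ P₃ R₁ R₂ R₃ : MG G}
    (h : (List.replicate N (Z4 y a₁ a₂ g₁ g₂)).flatten.IsRotated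
      [(e, P₁), (e', R₂), (e, P₂), (e', R₃), (e, P₃), (e', R₁)]) (hP : P₁.1 ≠ 1) :
    R₃ = kM y a₁ ∨ R₃ = kM y a₂ := by
  obtain ⟨d, hd⟩ := getElem_of_isRotated _ (by simp [Z4]) N h
  have e0 := hd 0 (by simp)
  have e3 := hd 3 (by simp)
  simp only [Z4_length] at e0 e3
  obtain ⟨s, hs⟩ : ∃ s, s = d % 4 := ⟨_, rfl⟩
  have hs6 : s < 4 := by omega
  have g0 : (0 + d) % 4 = s := by omega
  have g3 : (3 + d) % 4 = (s + 3) % 4 := by omega
  simp only [g0, g3] at e0 e3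
  interval_cases s
  · exact absurd (by rw [show P₁ = kM y a₁ from congrArg Prod.snd e0]; rfl) hP
  · exact Or.inl (congrArg Prod.snd e3)
  · exact absurd (by rw [show P₁ = kM y a₂ from congrArg Prod.snd e0]; rfl) hP
  · exact Or.inr (congrArg Prod.snd e3)

/-- The peak of `core`. -/
theorem exists_peak {M : Type u} {Γ : Type v} {E : Type w} [Group M] [Group Γ] (B : Brit M Γ E)
    (e : E) (m : M) (l : List (E × M)) (hl : l ≠ []) (k : M) :
    ∃ pre post e₁ m₁ e₂ m₂ e₃, B.core e m l k =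
      pre ++ (e₁, m₁) :: (e₂, m₂ * k * m₂⁻¹) :: (e₃, m₁⁻¹) :: post := by
  induction l generalizing e m with
  | nil => exact absurd rfl hl
  | cons x l ih =>
    obtain ⟨e', m'⟩ := x
    cases l with
    | nil =>
      exact ⟨[], [], e, m, e', m', B.inv e', by simp [Brit.core]⟩
    | cons z l =>
      obtain ⟨pre, post, e₁, m₁, e₂, m₂, e₃, h⟩ := ih e' m' (by simp)
      refine ⟨(e, m) :: pre, post ++ [(B.inv e', m⁻¹)], e₁, m₁, e₂, m₂, e₃, ?_⟩
      rw [Brit.core, h]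
      simp

end Matching

end Pool.Agent.R708
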