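import Mathlib

/-!
# A rigid ternary relation on every set
-/

namespace Pool.Agent.R708

universe u

section Rigid

variable {Z : Type u} [LinearOrder Z]

/-- `z` is the supremum of a strictly increasing sequence. -/
def HasSeq (z : Z) : Prop := ∃ c : ℕ → Z, StrictMono c ∧ (∀ n, c n < z) ∧ ∀ y < z, ∃ n, y ≤ c n

open Classical in
/-- A chosen cofinal sequence. -/
noncomputable def cseq (z : Z) : ℕ → Z := if h : HasSeq z then h.choose else fun _ => z

theorem cseq_spec {z : Z} (h : HasSeq z) :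
    StrictMono (cseq z) ∧ (∀ n, cseq z n < z) ∧ ∀ y < z, ∃ n, y ≤ cseq z n := by
  rw [cseq, dif_pos h]
  exact h.choose_spec

/-- The rigid relation. -/
def rigidRel (Z : Type u) [LinearOrder Z] : Set (Z × Z × Z) :=
  {p | (p.1 = p.2.1 ∧ p.2.1 = p.2.2) ∨ (p.1 < p.2.1 ∧ p.2.1 = p.2.2) ∨
    (HasSeq p.2.2 ∧ p.1 = cseq p.2.2 0 ∧ p.2.1 = cseq p.2.2 0) ∨
    (HasSeq p.2.2 ∧ ∃ n, p.1 = cseq p.2.2 n ∧ p.2.1 = cseq p.2.2 (n + 1))}

theorem rigidRel_rigid [WellFoundedLT Z] [OrderTop Z] (f : Z → Z) (hf : Function.Injective f)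
    (h : ∀ x y z, (x, y, z) ∈ rigidRel Z → (f x, f y, f z) ∈ rigidRel Z) : f = id := by
  have hmono : StrictMono f := by
    intro x y hxy
    rcases h x y y (Or.inr (Or.inl ⟨hxy, rfl⟩)) with h1 | h1 | h1 | h1
    · exact absurd (hf h1.1) hxy.ne
    · exact h1.1
    · obtain ⟨-, h2, h3⟩ := h1
      exact absurd (hf (h2.trans h3.symm)) hxy.ne
    · obtain ⟨h2, n, h3, h4⟩ := h1
      exact absurd h4.symm ((cseq_spec h2).2.1 (n + 1)).ne
  have hle : ∀ x, x ≤ f x := fun x => hmono.le_apply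
  by_contra hne
  obtain ⟨x, hx⟩ : ∃ x, f x ≠ x := by
    by_contra hall
    push Not at hall
    exact hne (funext hall)
  have hx' : x < f x := lt_of_le_of_ne (hle x) (Ne.symm hx)
  set s : ℕ → Z := fun n => f^[n] x with hs
  have hs1 : ∀ n, s (n + 1) = f (s n) := fun n => Function.iterate_succ_apply' f n x
  have hsmono : StrictMono s := by
    apply strictMono_nat_of_lt_succ
    intro n
    induction n with
    | zero => exact hx'
    | succ n ih => rw [hs1, hs1 (n + 1)]; exact hmono ih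
  have hne' : {y | ∀ n, s n < y}.Nonempty :=
    ⟨⊤, fun n => (hsmono (Nat.lt_succ_self n)).trans_le le_top⟩
  set μ := WellFounded.min (wellFounded_lt (α := Z)) {y | ∀ n, s n < y} hne' with hμ
  have hμ1 : ∀ n, s n < μ := WellFounded.min_mem _ _ hne'
  have hμ2 : ∀ y < μ, ∃ n, y ≤ s n := by
    intro y hy
    by_contra hall
    push Not at hall
    exact WellFounded.not_lt_min (wellFounded_lt (α := Z)) {y | ∀ n, s n < y} hall hy
  have hμs : HasSeq μ := ⟨s, hsmono, hμ1, hμ2⟩
  obtain ⟨c1, c2, c3⟩ := cseq_spec hμs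
  have hfc : ∀ n, f (cseq μ n) < μ := by
    intro n
    obtain ⟨k, hk⟩ := hμ2 _ (c2 n)
    calc f (cseq μ n) ≤ f (s k) := hmono.monotone hk
      _ = s (k + 1) := (hs1 k).symm
      _ < μ := hμ1 _
  have h0 : HasSeq (f μ) ∧ f (cseq μ 0) = cseq (f μ) 0 := by
    rcases h (cseq μ 0) (cseq μ 0) μ (Or.inr (Or.inr (Or.inl ⟨hμs, rfl, rfl⟩))) with
      h1 | h1 | h1 | h1
    · exact absurd (hf h1.2) (c2 0).ne
    · exact absurd h1.1 (lt_irrefl _)
    · exact ⟨h1.1, h1.2.1⟩
    · obtain ⟨h2, n, h3, h4⟩ := h1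
      exact absurd (h3.symm.trans h4) ((cseq_spec h2).1 (Nat.lt_succ_self n)).ne
  obtain ⟨d1, d2, d3⟩ := cseq_spec h0.1
  have hn : ∀ n, f (cseq μ n) = cseq (f μ) n := by
    intro n
    induction n with
    | zero => exact h0.2
    | succ n ih =>
      rcases h (cseq μ n) (cseq μ (n + 1)) μ (Or.inr (Or.inr (Or.inr ⟨hμs, n, rfl, rfl⟩))) with
        h1 | h1 | h1 | h1
      · exact absurd (hf h1.1) (c1 (Nat.lt_succ_self n)).ne
      · exact absurd (hf h1.2) (c2 _).ne
      · exact absurd (hf (h1.2.1.trans h1.2.2.symm)) (c1 (Nat.lt_succ_self n)).ne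
      · obtain ⟨-, m, h3, h4⟩ := h1
        simp only at h3 h4
        have : m = n := d1.injective (h3.symm.trans ih)
        rw [h4, this]
  have hfμ : f μ = μ := by
    apply le_antisymm _ (hle μ)
    by_contra hlt
    push Not at hlt
    obtain ⟨n, hn'⟩ := d3 μ hlt
    rw [← hn] at hn'
    exact absurd (hfc n) (not_lt.2 hn')
  obtain ⟨n, hxn⟩ := c3 x (hμ1 0)
  have hfix : f (cseq μ n) = cseq μ n := by rw [hn, hfμ]
  have hall : ∀ k, s k ≤ cseq μ n := by
    intro k
    induction k with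
    | zero => exact hxn
    | succ k ih => rw [hs1, ← hfix]; exact hmono.monotone ih
  obtain ⟨k, hk⟩ := hμ2 _ (c2 n)
  exact absurd (hall (k + 1)) (not_le.2 (hk.trans_lt (hsmono (Nat.lt_succ_self k))))

end Rigid

/-- On every type there is a ternary relation containing the diagonal such that the identity is the
only injective map preserving it. -/
theorem exists_rigid (X : Type u) : ∃ P : Set (X × X × X), (∀ x, (x, x, x) ∈ P) ∧
    ∀ f : X → X, Function.Injective f → (∀ x y z, (x, y, z) ∈ P → (f x, f y, f z) ∈ P) →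
      f = id := by
  classical
  rcases isEmpty_or_nonempty X with hX | ⟨⟨x₀⟩⟩
  · exact ⟨Set.univ, fun x => trivial, fun f _ _ => Subsingleton.elim _ _⟩
  · obtain ⟨lo, wf⟩ := exists_wellFoundedLT {x : X // x ≠ x₀}
    let e : X ≃ WithTop {x : X // x ≠ x₀} := (Equiv.optionSubtypeNe x₀).symm
    refine ⟨{p | (e p.1, e p.2.1, e p.2.2) ∈ rigidRel (WithTop {x : X // x ≠ x₀})}, ?_, ?_⟩
    · intro x
      exact Or.inl ⟨rfl, rfl⟩
    · intro f hf h
      have := rigidRel_rigid (e ∘ f ∘ e.symm)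
        (e.injective.comp (hf.comp e.symm.injective)) (by
          intro x y z hp
          have := h (e.symm x) (e.symm y) (e.symm z) (by simpa using hp)
          exact this)
      funext x
      have h2 := congrFun this (e x)
      simpa using h2

end Pool.Agent.R708
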